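import Mathlib
import Pool.Agent.H92.DivBound

/-!
Counting values of a linear polynomial all of whose prime factors outside a given set occur to a
power greater than one.
-/

namespace Pool.Agent.H33.Ell

open Finset

theorem decomp (l D : ℕ) (hl : l ≠ 0) (hD : D ≠ 0)
    (h : ∀ p, p.Prime → ¬ p ∣ D → l.factorization p ≠ 1) :
    ∃ A t S, l = A * t * S ^ 2 ∧ A ∣ D ∧ t ∣ S ∧ S ≠ 0 := by
  obtain ⟨r, S, hrS, hr⟩ := Nat.sq_mul_squarefree l
  have hS0 : S ≠ 0 := by
    rintro rfl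
    apply hl
    rw [← hrS]
    simp
  have hr0 : r ≠ 0 := hr.ne_zero
  obtain ⟨t, ht⟩ := Nat.gcd_dvd_left r D
  have hg0 : Nat.gcd r D ≠ 0 := Nat.gcd_ne_zero_left hr0
  have ht0 : t ≠ 0 := by
    rintro rfl
    apply hr0
    rw [ht, mul_zero]
  have htr : t ∣ r := ⟨Nat.gcd r D, by rw [mul_comm]; exact ht⟩
  refine ⟨Nat.gcd r D, t, S, ?_, Nat.gcd_dvd_right r D, ?_, hS0⟩
  · rw [← ht, ← hrS, mul_comm]
  · rw [← Nat.factorization_le_iff_dvd ht0 hS0]
    intro p
    have htsq : Squarefree t := hr.squarefree_of_dvd htr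
    have h1 : t.factorization p ≤ 1 := htsq.natFactorization_le_one p
    by_cases h0 : t.factorization p = 0
    · rw [h0]
      exact Nat.zero_le _
    have h2 : t.factorization p = 1 := by omega
    have hpp : p.Prime := by
      by_contra hp
      exact h0 (Nat.factorization_eq_zero_of_not_prime _ hp)
    have hpt : p ∣ t := by
      by_contra hc
      exact h0 (Nat.factorization_eq_zero_of_not_dvd hc)
    have hpD : ¬ p ∣ D := by
      intro hc
      have h3 : p ∣ Nat.gcd r D := Nat.dvd_gcd (hpt.trans htr) hc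
      have h4 : p * p ∣ r := by
        rw [ht]
        exact Nat.mul_dvd_mul h3 hpt
      exact hpp.one_lt.ne' (Nat.isUnit_iff.1 (hr p h4))
    have h5 := h p hpp hpD
    have h6 : r.factorization p = 1 := by
      have h7 : r.factorization p ≤ 1 := hr.natFactorization_le_one p
      have h8 : 1 ≤ r.factorization p := by
        rw [← h2]
        exact (Nat.factorization_le_iff_dvd ht0 hr0).2 htr p
      omega
    have h7 : l.factorization p = 2 * S.factorization p + r.factorization p := by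
      rw [← hrS, Nat.factorization_mul (pow_ne_zero _ hS0) hr0, Nat.factorization_pow]
      simp
    rw [h2]
    by_contra hc
    apply h5
    rw [h7, h6]
    omega

theorem sum_div_sq (X Y : ℕ) (hY : 1 ≤ Y) :
    ∑ S ∈ Ioc Y X, ((X / S ^ 2 : ℕ) : ℝ) ≤ (X : ℝ) / Y := by
  have key : ∀ Z, Y ≤ Z → ∑ S ∈ Ioc Y Z, ((X : ℝ) / (S : ℝ) ^ 2) ≤ (X : ℝ) / Y - (X : ℝ) / Z := by
    intro Z hZ
    induction Z, hZ using Nat.le_induction with
    | base => simp
    | succ Z hZ ih =>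
      rw [← Finset.insert_Ioc_right_eq_Ioc_add_one (by omega), sum_insert (by simp)]
      have hZ0 : (0 : ℝ) < Z := by
        have : 0 < Z := by omega
        exact_mod_cast this
      have hX : (0 : ℝ) ≤ X := Nat.cast_nonneg X
      have h1 : (X : ℝ) / ((Z + 1 : ℕ) : ℝ) ^ 2 ≤ (X : ℝ) / Z - (X : ℝ) / ((Z + 1 : ℕ) : ℝ) := by
        push_cast
        rw [div_sub_div _ _ hZ0.ne' (by positivity), div_le_div_iff₀ (by positivity) (by positivity)]
        have : 0 ≤ (X : ℝ) * ((Z : ℝ) + 1) := by positivity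
        nlinarith
      linarith
  rcases le_total Y X with h | h
  · have h1 := key X h
    have h2 : ∑ S ∈ Ioc Y X, ((X / S ^ 2 : ℕ) : ℝ) ≤ ∑ S ∈ Ioc Y X, ((X : ℝ) / (S : ℝ) ^ 2) := by
      apply sum_le_sum
      intro S _
      calc ((X / S ^ 2 : ℕ) : ℝ) ≤ (X : ℝ) / ((S ^ 2 : ℕ) : ℝ) := Nat.cast_div_le
        _ = _ := by push_cast; rfl
    have h3 : (0 : ℝ) ≤ (X : ℝ) / X := by positivity
    linarith
  · rw [Ioc_eq_empty (by omega), sum_empty]
    positivity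

theorem card_special (D X Y : ℕ) (hD : D ≠ 0) (hY : 1 ≤ Y) (W : Finset ℕ)
    (hW : ∀ l ∈ W, 1 ≤ l ∧ l ≤ X ∧ ∀ p, p.Prime → ¬ p ∣ D → l.factorization p ≠ 1) :
    (W.card : ℝ) ≤ D.divisors.card * (Y : ℝ) ^ 2 + (X : ℝ) / Y := by
  classical
  set W1 : Finset ℕ := (D.divisors ×ˢ (Icc 1 Y ×ˢ Icc 1 Y)).image
    (fun z => z.1 * z.2.1 * z.2.2 ^ 2) with hW1
  set W2 : Finset ℕ := (Ioc Y X).biUnion (fun S => (Ioc 0 X).filter (fun l => S ^ 2 ∣ l)) with hW2
  have hsub : W ⊆ W1 ∪ W2 := by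
    intro l hl
    obtain ⟨h1, h2, h3⟩ := hW l hl
    obtain ⟨A, t, S, hl4, hAD, htS, hS0⟩ := decomp l D (by omega) hD h3
    have hA0 : A ≠ 0 := fun h => hD (Nat.eq_zero_of_zero_dvd (h ▸ hAD))
    have ht0 : t ≠ 0 := fun h => hS0 (Nat.eq_zero_of_zero_dvd (h ▸ htS))
    rw [mem_union]
    by_cases hSY : S ≤ Y
    · left
      rw [hW1, mem_image]
      refine ⟨(A, t, S), ?_, hl4.symm⟩
      rw [mem_product, mem_product, Nat.mem_divisors, mem_Icc, mem_Icc]
      refine ⟨⟨hAD, hD⟩, ⟨Nat.pos_of_ne_zero ht0, ?_⟩, Nat.pos_of_ne_zero hS0, hSY⟩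
      exact (Nat.le_of_dvd (Nat.pos_of_ne_zero hS0) htS).trans hSY
    · right
      rw [hW2, mem_biUnion]
      have hdvd : S ^ 2 ∣ l := ⟨A * t, by rw [hl4, mul_comm]⟩
      refine ⟨S, ?_, ?_⟩
      · rw [mem_Ioc]
        refine ⟨by omega, ?_⟩
        calc S ≤ S ^ 2 := Nat.le_self_pow two_ne_zero S
          _ ≤ l := Nat.le_of_dvd h1 hdvd
          _ ≤ X := h2
      · rw [mem_filter, mem_Ioc]
        exact ⟨⟨h1, h2⟩, hdvd⟩
  have hc1 : W1.card ≤ D.divisors.card * Y ^ 2 := by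
    refine card_image_le.trans ?_
    rw [card_product, card_product, Nat.card_Icc, Nat.add_sub_cancel, sq]
  have hc2 : (W2.card : ℝ) ≤ (X : ℝ) / Y := by
    refine le_trans ?_ (sum_div_sq X Y hY)
    have h1 : W2.card ≤ ∑ S ∈ Ioc Y X, X / S ^ 2 := by
      refine card_biUnion_le.trans (sum_le_sum fun S _ => ?_)
      rw [Nat.Ioc_filter_dvd_card_eq_div]
    calc (W2.card : ℝ) ≤ ((∑ S ∈ Ioc Y X, X / S ^ 2 : ℕ) : ℝ) := by exact_mod_cast h1
      _ = _ := by rw [Nat.cast_sum]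
  calc (W.card : ℝ) ≤ ((W1 ∪ W2).card : ℝ) := by exact_mod_cast card_le_card hsub
    _ ≤ (W1.card : ℝ) + W2.card := by exact_mod_cast card_union_le _ _
    _ ≤ ((D.divisors.card * Y ^ 2 : ℕ) : ℝ) + (X : ℝ) / Y := by
        have : (W1.card : ℝ) ≤ ((D.divisors.card * Y ^ 2 : ℕ) : ℝ) := by exact_mod_cast hc1
        linarith
    _ = _ := by push_cast; rfl

end Pool.Agent.H33.Ell
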