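import Mathlib

/-!
Counting solutions of the equation of equal ratios.
-/

namespace Pool.Agent.H33.Ell

open Finset Polynomial

variable {k : ℕ}

/-- `∏ (P x + h_j)^(u_j) (Q x + h_j)^(v_j)` -/
def RR (h : Fin k → ℤ) (P Q : ℕ) (u v : Fin k → ℕ) (x : ℚ) : ℚ :=
  ∏ j, ((P : ℚ) * x + h j) ^ u j * ((Q : ℚ) * x + h j) ^ v j

theorem RR_swap (h : Fin k → ℤ) (P Q : ℕ) (u v : Fin k → ℕ) (x : ℚ) :
    RR h P Q u v x = RR h Q P v u x := by
  unfold RR
  exact prod_congr rfl fun j _ => mul_comm _ _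

/-- exactly one exponent of each pair vanishes -/
def Alt (u v : Fin k → ℕ) : Prop := ∀ j, (u j ≠ 0 ∧ v j = 0) ∨ (u j = 0 ∧ v j ≠ 0)

theorem Alt.symm {u v : Fin k → ℕ} (h : Alt u v) : Alt v u := fun j => by
  rcases h j with h | h
  · exact Or.inr ⟨h.2, h.1⟩
  · exact Or.inl ⟨h.2, h.1⟩

theorem sep_lt (hk : 0 < k) (h : Fin k → ℤ) (hinj : Function.Injective h) (hne : ∀ j, h j ≠ 0)
    (P Q : ℕ) (hP : 0 < P) (hPQ : P < Q) (u v : Fin k → ℕ) (huv : Alt u v) :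
    ∃ x : ℚ, (RR h P Q u v x = 0 ∧ RR h P Q v u x ≠ 0) ∨
      (RR h P Q u v x ≠ 0 ∧ RR h P Q v u x = 0) := by
  classical
  obtain ⟨j₀, -, hj₀⟩ := exists_max_image (univ : Finset (Fin k)) (fun j => |h j|)
    ⟨⟨0, hk⟩, mem_univ _⟩
  have hPq : (0 : ℚ) < P := by exact_mod_cast hP
  have hQP : (P : ℚ) < Q := by exact_mod_cast hPQ
  set x : ℚ := -(h j₀ : ℚ) / P with hx
  have h1 : ∀ j, (P : ℚ) * x + h j = h j - h j₀ := by
    intro j
    rw [hx]
    field_simp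
    ring
  have hh0 : (0 : ℚ) < |(h j₀ : ℚ)| := by
    rw [abs_pos]
    exact_mod_cast hne j₀
  have h2 : ∀ j, (Q : ℚ) * x + h j ≠ 0 := by
    intro j hj
    have h3 : (h j : ℚ) = (Q / P) * h j₀ := by
      rw [hx] at hj
      field_simp at hj ⊢
      linarith
    have h4 : |(h j : ℚ)| ≤ |(h j₀ : ℚ)| := by
      have := hj₀ j (mem_univ _)
      exact_mod_cast this
    have h5 : |(h j : ℚ)| = (Q / P) * |(h j₀ : ℚ)| := by
      have hQq : (0 : ℚ) < Q := lt_trans hPq hQP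
      rw [h3, abs_mul, abs_of_pos (div_pos hQq hPq)]
    have h6 : (1 : ℚ) < Q / P := by
      rw [lt_div_iff₀ hPq, one_mul]
      exact hQP
    nlinarith
  have h0 : (P : ℚ) * x + h j₀ = 0 := by rw [h1, sub_self]
  have hz : ∀ u v : Fin k → ℕ, u j₀ ≠ 0 → RR h P Q u v x = 0 := by
    intro u v hu
    unfold RR
    apply prod_eq_zero (mem_univ j₀)
    rw [h0, zero_pow hu, zero_mul]
  have hnz : ∀ u v : Fin k → ℕ, u j₀ = 0 → RR h P Q u v x ≠ 0 := by
    intro u v hu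
    unfold RR
    rw [prod_ne_zero_iff]
    intro j _
    apply mul_ne_zero _ (pow_ne_zero _ (h2 j))
    by_cases hj : j = j₀
    · rw [hj, hu, pow_zero]
      exact one_ne_zero
    · apply pow_ne_zero
      rw [h1, sub_ne_zero]
      intro hc
      apply hj
      apply hinj
      exact_mod_cast hc
  refine ⟨x, ?_⟩
  rcases huv j₀ with ⟨ha, hb⟩ | ⟨ha, hb⟩
  · exact Or.inl ⟨hz u v ha, hnz v u hb⟩
  · exact Or.inr ⟨hnz u v ha, hz v u hb⟩

theorem sep (hk : 0 < k) (h : Fin k → ℤ) (hinj : Function.Injective h) (hne : ∀ j, h j ≠ 0)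
    (P Q : ℕ) (hP : 0 < P) (hQ : 0 < Q) (hPQ : P ≠ Q) (u v : Fin k → ℕ) (huv : Alt u v) :
    ∃ x : ℚ, (RR h P Q u v x = 0 ∧ RR h P Q v u x ≠ 0) ∨
      (RR h P Q u v x ≠ 0 ∧ RR h P Q v u x = 0) := by
  rcases Nat.lt_or_gt_of_ne hPQ with hlt | hlt
  · exact sep_lt hk h hinj hne P Q hP hlt u v huv
  · obtain ⟨x, hx⟩ := sep_lt hk h hinj hne Q P hQ hlt v u huv.symm
    refine ⟨x, ?_⟩
    rw [RR_swap h P Q u v, RR_swap h P Q v u]
    exact hx

/-- the polynomial with values `RR` -/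
noncomputable def pR (h : Fin k → ℤ) (P Q : ℕ) (u v : Fin k → ℕ) : ℚ[X] :=
  ∏ j, (C (P : ℚ) * X + C (h j : ℚ)) ^ u j * (C (Q : ℚ) * X + C (h j : ℚ)) ^ v j

theorem eval_pR (h : Fin k → ℤ) (P Q : ℕ) (u v : Fin k → ℕ) (x : ℚ) :
    (pR h P Q u v).eval x = RR h P Q u v x := by
  unfold pR RR
  rw [eval_prod]
  apply prod_congr rfl
  intro j _
  simp

theorem natDegree_pR (h : Fin k → ℤ) (P Q : ℕ) (u v : Fin k → ℕ) :
    (pR h P Q u v).natDegree ≤ ∑ j, (u j + v j) := by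
  unfold pR
  refine (natDegree_prod_le _ _).trans (sum_le_sum fun j _ => ?_)
  have hlin : ∀ a b : ℚ, (C a * X + C b : ℚ[X]).natDegree ≤ 1 := fun a b => natDegree_linear_le
  refine natDegree_mul_le.trans (add_le_add ?_ ?_)
  · refine natDegree_pow_le.trans ?_
    calc u j * (C (P : ℚ) * X + C (h j : ℚ) : ℚ[X]).natDegree ≤ u j * 1 :=
          Nat.mul_le_mul_left _ (hlin _ _)
      _ = u j := mul_one _
  · refine natDegree_pow_le.trans ?_
    calc v j * (C (Q : ℚ) * X + C (h j : ℚ) : ℚ[X]).natDegree ≤ v j * 1 :=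
          Nat.mul_le_mul_left _ (hlin _ _)
      _ = v j := mul_one _

/-- natural number version -/
def NN (h : Fin k → ℤ) (P Q : ℕ) (u v : Fin k → ℕ) (m : ℕ) : ℕ :=
  ∏ j, (((P : ℤ) * m + h j).toNat ^ u j * ((Q : ℤ) * m + h j).toNat ^ v j)

theorem NN_cast (h : Fin k → ℤ) (P Q : ℕ) (u v : Fin k → ℕ) (huv : Alt u v) (m : ℕ)
    (h1 : NN h P Q u v m ≠ 0) (h2 : NN h P Q v u m ≠ 0) :
    ((NN h P Q u v m : ℕ) : ℚ) = RR h P Q u v m ∧ ((NN h P Q v u m : ℕ) : ℚ) = RR h P Q v u m := by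
  unfold NN at h1 h2
  rw [prod_ne_zero_iff] at h1 h2
  have hpos : ∀ j, 0 < (P : ℤ) * m + h j ∧ 0 < (Q : ℤ) * m + h j := by
    intro j
    have h3 := h1 j (mem_univ _)
    have h4 := h2 j (mem_univ _)
    have key : ∀ (y : ℤ) (e : ℕ), e ≠ 0 → y.toNat ^ e ≠ 0 → 0 < y := by
      intro y e he hy
      by_contra hc
      apply hy
      have : y.toNat = 0 := Int.toNat_of_nonpos (not_lt.1 hc)
      rw [this, zero_pow he]
    rcases huv j with ⟨ha, hb⟩ | ⟨ha, hb⟩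
    · exact ⟨key _ _ ha (left_ne_zero_of_mul h3), key _ _ ha (right_ne_zero_of_mul h4)⟩
    · exact ⟨key _ _ hb (left_ne_zero_of_mul h4), key _ _ hb (right_ne_zero_of_mul h3)⟩
  have hP : ∀ j, ((((P : ℤ) * m + h j).toNat : ℕ) : ℚ) = (P : ℚ) * (m : ℚ) + h j := by
    intro j
    have : ((((P : ℤ) * m + h j).toNat : ℕ) : ℤ) = (P : ℤ) * m + h j :=
      Int.toNat_of_nonneg (hpos j).1.le
    calc ((((P : ℤ) * m + h j).toNat : ℕ) : ℚ) = (((((P : ℤ) * m + h j).toNat : ℕ) : ℤ) : ℚ) := by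
          push_cast; rfl
      _ = _ := by rw [this]; push_cast; rfl
  have hQ : ∀ j, ((((Q : ℤ) * m + h j).toNat : ℕ) : ℚ) = (Q : ℚ) * (m : ℚ) + h j := by
    intro j
    have : ((((Q : ℤ) * m + h j).toNat : ℕ) : ℤ) = (Q : ℤ) * m + h j :=
      Int.toNat_of_nonneg (hpos j).2.le
    calc ((((Q : ℤ) * m + h j).toNat : ℕ) : ℚ) = (((((Q : ℤ) * m + h j).toNat : ℕ) : ℤ) : ℚ) := by
          push_cast; rfl
      _ = _ := by rw [this]; push_cast; rfl
  unfold NN RR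
  rw [Nat.cast_prod, Nat.cast_prod]
  constructor
  · apply prod_congr rfl
    intro j _
    rw [Nat.cast_mul, Nat.cast_pow, Nat.cast_pow, hP, hQ]
  · apply prod_congr rfl
    intro j _
    rw [Nat.cast_mul, Nat.cast_pow, Nat.cast_pow, hP, hQ]

theorem count_le (hk : 0 < k) (h : Fin k → ℤ) (hinj : Function.Injective h) (hne : ∀ j, h j ≠ 0)
    (P Q : ℕ) (hP : 0 < P) (hQ : 0 < Q) (hPQ : P ≠ Q) (u v : Fin k → ℕ) (huv : Alt u v)
    (x n : ℕ) (hU : NN h P Q u v n ≠ 0) (hV : NN h P Q v u n ≠ 0) :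
    ((range x).filter (fun m => NN h P Q u v n * NN h P Q v u m = NN h P Q v u n * NN h P Q u v m ∧
      NN h P Q u v n * NN h P Q v u m ≠ 0)).card ≤ ∑ j, (u j + v j) := by
  classical
  set W : ℚ[X] := C ((NN h P Q u v n : ℕ) : ℚ) * pR h P Q v u -
    C ((NN h P Q v u n : ℕ) : ℚ) * pR h P Q u v with hW
  have hUq : ((NN h P Q u v n : ℕ) : ℚ) ≠ 0 := by exact_mod_cast hU
  have hVq : ((NN h P Q v u n : ℕ) : ℚ) ≠ 0 := by exact_mod_cast hV
  have hW0 : W ≠ 0 := by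
    intro hc
    obtain ⟨y, hy⟩ := sep hk h hinj hne P Q hP hQ hPQ u v huv
    have h1 : W.eval y = 0 := by rw [hc, eval_zero]
    rw [hW, eval_sub, eval_mul, eval_mul, eval_C, eval_C, eval_pR, eval_pR] at h1
    rcases hy with ⟨ha, hb⟩ | ⟨ha, hb⟩
    · rw [ha, mul_zero, sub_zero] at h1
      exact (mul_ne_zero hUq hb) h1
    · rw [hb, mul_zero, zero_sub, neg_eq_zero] at h1
      exact (mul_ne_zero hVq ha) h1
  have hdeg : W.natDegree ≤ ∑ j, (u j + v j) := by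
    rw [hW]
    refine (natDegree_sub_le _ _).trans (max_le ?_ ?_)
    · refine (natDegree_C_mul_le _ _).trans ((natDegree_pR h P Q v u).trans (le_of_eq ?_))
      exact sum_congr rfl fun j _ => add_comm _ _
    · exact (natDegree_C_mul_le _ _).trans (natDegree_pR h P Q u v)
  have h1 : ((range x).filter (fun m => NN h P Q u v n * NN h P Q v u m =
      NN h P Q v u n * NN h P Q u v m ∧ NN h P Q u v n * NN h P Q v u m ≠ 0)).card ≤
      W.roots.toFinset.card := by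
    apply Finset.card_le_card_of_injOn (fun m : ℕ => (m : ℚ))
    · intro m hm
      rw [mem_coe, mem_filter] at hm
      obtain ⟨-, he, hne0⟩ := hm
      have h2 : NN h P Q v u m ≠ 0 := right_ne_zero_of_mul hne0
      have h3 : NN h P Q u v m ≠ 0 := by
        rw [he] at hne0
        exact right_ne_zero_of_mul hne0
      obtain ⟨h4, h5⟩ := NN_cast h P Q u v huv m h3 h2
      rw [mem_coe, Multiset.mem_toFinset, mem_roots hW0, IsRoot.def, hW, eval_sub, eval_mul,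
        eval_mul, eval_C, eval_C, eval_pR, eval_pR, ← h4, ← h5, sub_eq_zero]
      exact_mod_cast he
    · intro a _ b _ hab
      have hab' : (a : ℚ) = (b : ℚ) := hab
      exact_mod_cast hab'
  exact h1.trans ((Multiset.toFinset_card_le _).trans ((card_roots' W).trans hdeg))

end Pool.Agent.H33.Ell
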