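import Mathlib

/-!
Completely multiplicative unimodular functions as points of the compact group of families
of unit complex numbers indexed by the primes, with Haar measure; orthogonality relations; an
almost sure law for averages with small second moments.
-/

namespace Pool.Agent.H33.Ell

open Finset Filter Topology MeasureTheory TopologicalSpace

/-- Borel sigma-algebra of the circle. -/
noncomputable instance instMeasCircle : MeasurableSpace Circle := borel Circle

instance instBorelCircle : BorelSpace Circle := ⟨rfl⟩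

/-- value at `p` (`1` if `p` is not prime) -/
noncomputable def val (ω : Nat.Primes → Circle) (p : ℕ) : ℂ :=
  if hp : p.Prime then ((ω ⟨p, hp⟩ : Circle) : ℂ) else 1

/-- The completely multiplicative function `g` with `g p = ω p` for all primes `p`; `g 0 = 0`. -/
noncomputable def cm (ω : Nat.Primes → Circle) (n : ℕ) : ℂ :=
  if n = 0 then 0 else n.factorization.prod (fun p k => val ω p ^ k)

/-- normalised Haar measure on the compact group of all families. -/
noncomputable def haarProb : Measure (Nat.Primes → Circle) :=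
  Measure.haarMeasure (⊤ : PositiveCompacts (Nat.Primes → Circle))

instance : IsProbabilityMeasure haarProb :=
  ⟨by
    unfold haarProb
    have := Measure.haarMeasure_self (K₀ := (⊤ : PositiveCompacts (Nat.Primes → Circle)))
    simpa using this⟩

instance : haarProb.IsMulLeftInvariant := by
  unfold haarProb
  infer_instance

theorem cm_zero (ω : Nat.Primes → Circle) : cm ω 0 = 0 := by simp [cm]

theorem cm_one (ω : Nat.Primes → Circle) : cm ω 1 = 1 := by simp [cm]

theorem cm_mul (ω : Nat.Primes → Circle) (m n : ℕ) : cm ω (m * n) = cm ω m * cm ω n := by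
  rcases Nat.eq_zero_or_pos m with rfl | hm
  · simp [cm]
  rcases Nat.eq_zero_or_pos n with rfl | hn
  · simp [cm]
  unfold cm
  rw [if_neg (Nat.mul_pos hm hn).ne', if_neg hm.ne', if_neg hn.ne',
    Nat.factorization_mul hm.ne' hn.ne']
  exact Finsupp.prod_add_index' (fun p => pow_zero _) (fun p a b => pow_add _ _ _)

theorem cm_pow (ω : Nat.Primes → Circle) (m k : ℕ) : cm ω (m ^ k) = cm ω m ^ k := by
  induction k with
  | zero => rw [pow_zero, pow_zero, cm_one]
  | succ k ih => rw [pow_succ, pow_succ, cm_mul, ih]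

theorem cm_prod {ι : Type*} (ω : Nat.Primes → Circle) (s : Finset ι) (f : ι → ℕ) :
    cm ω (∏ i ∈ s, f i) = ∏ i ∈ s, cm ω (f i) := by
  classical
  induction s using Finset.induction_on with
  | empty => rw [prod_empty, prod_empty, cm_one]
  | insert i s hi ih => rw [prod_insert hi, prod_insert hi, cm_mul, ih]

theorem norm_val (ω : Nat.Primes → Circle) (p : ℕ) : ‖val ω p‖ = 1 := by
  unfold val
  split_ifs
  · exact Circle.norm_coe _
  · exact norm_one

theorem norm_cm (ω : Nat.Primes → Circle) {n : ℕ} (hn : n ≠ 0) : ‖cm ω n‖ = 1 := by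
  unfold cm
  rw [if_neg hn, Finsupp.prod, norm_prod]
  apply prod_eq_one
  intro p _
  rw [norm_pow, norm_val, one_pow]

theorem norm_cm_le (ω : Nat.Primes → Circle) (n : ℕ) : ‖cm ω n‖ ≤ 1 := by
  rcases Nat.eq_zero_or_pos n with rfl | hn
  · rw [cm_zero, norm_zero]; exact zero_le_one
  · exact (norm_cm ω hn.ne').le

theorem val_mul (ω η : Nat.Primes → Circle) (p : ℕ) : val (ω * η) p = val ω p * val η p := by
  unfold val
  split_ifs
  · exact Circle.coe_mul _ _
  · rw [one_mul]

theorem cm_mul_left (ω η : Nat.Primes → Circle) (n : ℕ) : cm (ω * η) n = cm ω n * cm η n := by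
  rcases Nat.eq_zero_or_pos n with rfl | hn
  · simp [cm]
  unfold cm
  rw [if_neg hn.ne', if_neg hn.ne', if_neg hn.ne', Finsupp.prod, Finsupp.prod, Finsupp.prod,
    ← prod_mul_distrib]
  apply prod_congr rfl
  intro p _
  rw [val_mul, mul_pow]

theorem continuous_val (p : ℕ) : Continuous (fun ω : Nat.Primes → Circle => val ω p) := by
  unfold val
  split_ifs with hp
  · exact continuous_subtype_val.comp (continuous_apply _)
  · exact continuous_const

theorem continuous_cm (n : ℕ) : Continuous (fun ω : Nat.Primes → Circle => cm ω n) := by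
  unfold cm
  split_ifs
  · exact continuous_const
  · unfold Finsupp.prod
    exact continuous_finsetProd _ fun p _ => (continuous_val p).pow _

/-- characters separate different integers -/
theorem exists_sep {a b : ℕ} (ha : a ≠ 0) (hb : b ≠ 0) (hab : a ≠ b) :
    ∃ η : Nat.Primes → Circle, cm η a ≠ cm η b := by
  classical
  obtain ⟨p, hp, hpab⟩ : ∃ p : ℕ, p.Prime ∧ a.factorization p ≠ b.factorization p := by
    by_contra hcon
    push Not at hcon
    apply hab
    apply Nat.eq_of_factorization_eq ha hb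
    intro p
    by_cases hp : p.Prime
    · exact hcon p hp
    · rw [Nat.factorization_eq_zero_of_not_prime _ hp, Nat.factorization_eq_zero_of_not_prime _ hp]
  have key : ∀ (z : Circle) (n : ℕ), n ≠ 0 →
      cm (fun q : Nat.Primes => if (q : ℕ) = p then z else 1) n =
        (z : ℂ) ^ (n.factorization p) := by
    intro z n hn
    unfold cm
    rw [if_neg hn, Finsupp.prod]
    have hval : ∀ q : ℕ, val (fun q : Nat.Primes => if (q : ℕ) = p then z else 1) q =
        if q = p then (z : ℂ) else 1 := by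
      intro q
      unfold val
      by_cases hq : q.Prime
      · rw [dif_pos hq]
        change (((if q = p then z else 1 : Circle)) : ℂ) = _
        by_cases hqp : q = p
        · rw [if_pos hqp, if_pos hqp]
        · rw [if_neg hqp, if_neg hqp, Circle.coe_one]
      · rw [dif_neg hq, if_neg]
        rintro rfl
        exact hq hp
    rw [prod_congr rfl (g := fun q => if q = p then (z : ℂ) ^ (n.factorization p) else 1)]
    · rw [prod_ite_eq']
      split_ifs with h
      · rfl
      · rw [Finsupp.notMem_support_iff] at h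
        rw [h, pow_zero]
    · intro q _
      rw [hval]
      by_cases hqp : q = p
      · rw [if_pos hqp, if_pos hqp, hqp]
      · rw [if_neg hqp, if_neg hqp, one_pow]
  -- the difference
  have main : ∀ c d : ℕ, c ≠ 0 → d ≠ 0 → c.factorization p < d.factorization p →
      ∃ η : Nat.Primes → Circle, cm η c ≠ cm η d := by
    intro a b ha hb hlt
    obtain ⟨d, hd⟩ := Nat.exists_eq_add_of_lt hlt
    set z : Circle := Circle.exp (Real.pi / (d + 1)) with hz
    refine ⟨fun q : Nat.Primes => if (q : ℕ) = p then z else 1, ?_⟩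
    rw [key z a ha, key z b hb, hd]
    set i := a.factorization p with hi
    have h1 : (z : ℂ) ^ (d + 1) = -1 := by
      rw [hz, Circle.coe_exp, ← Complex.exp_nat_mul]
      have : ((d + 1 : ℕ) : ℂ) * (((Real.pi / (d + 1) : ℝ) : ℂ) * Complex.I) =
          Real.pi * Complex.I := by
        push_cast
        have hd0 : (d : ℂ) + 1 ≠ 0 := by exact_mod_cast Nat.succ_ne_zero d
        field_simp
      rw [this, Complex.exp_pi_mul_I]
    have h2 : (z : ℂ) ^ i ≠ 0 := pow_ne_zero _ (Circle.coe_ne_zero z)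
    rw [show i + d + 1 = i + (d + 1) by ring, pow_add, h1]
    intro h
    have h3 : (z : ℂ) ^ i = 0 := by linear_combination h / 2
    exact h2 h3
  rcases Nat.lt_or_gt_of_ne hpab with h | h
  · exact main a b ha hb h
  · obtain ⟨η, hη⟩ := main b a hb ha h
    exact ⟨η, hη.symm⟩

theorem integrable_of_continuous {f : (Nat.Primes → Circle) → ℂ} (hf : Continuous f) :
    Integrable f haarProb := by
  obtain ⟨C, hC⟩ := isCompact_univ.exists_bound_of_continuousOn hf.continuousOn
  exact Integrable.of_bound hf.aestronglyMeasurable C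
    (Eventually.of_forall fun ω => hC ω (Set.mem_univ _))

/-- orthogonality -/
theorem orth (a b : ℕ) : ∫ ω, cm ω a * (starRingEnd ℂ) (cm ω b) ∂haarProb =
    if a = b ∧ a ≠ 0 then 1 else 0 := by
  rcases Nat.eq_zero_or_pos a with rfl | ha
  · simp [cm_zero]
  rcases Nat.eq_zero_or_pos b with rfl | hb
  · have : ¬ (a = 0 ∧ a ≠ 0) := by omega
    rw [if_neg this]
    simp [cm_zero]
  by_cases hab : a = b
  · subst hab
    rw [if_pos ⟨rfl, ha.ne'⟩]
    have : ∀ ω : Nat.Primes → Circle, cm ω a * (starRingEnd ℂ) (cm ω a) = 1 := by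
      intro ω
      rw [Complex.mul_conj, Complex.normSq_eq_norm_sq, norm_cm ω ha.ne']
      norm_num
    simp_rw [this]
    simp
  · rw [if_neg (fun h => hab h.1)]
    obtain ⟨η, hη⟩ := exists_sep ha.ne' hb.ne' hab
    set φ : (Nat.Primes → Circle) → ℂ := fun ω => cm ω a * (starRingEnd ℂ) (cm ω b) with hφ
    have hmul : ∀ ω, φ (η * ω) = φ η * φ ω := by
      intro ω
      simp only [hφ]
      rw [cm_mul_left, cm_mul_left, map_mul]
      ring
    have h1 : ∫ ω, φ (η * ω) ∂haarProb = ∫ ω, φ ω ∂haarProb :=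
      integral_mul_left_eq_self φ η
    simp_rw [hmul] at h1
    rw [integral_const_mul] at h1
    have h2 : φ η ≠ 1 := by
      intro h
      apply hη
      simp only [hφ] at h
      have h3 : (starRingEnd ℂ) (cm η b) * cm η b = 1 := by
        rw [mul_comm, Complex.mul_conj, Complex.normSq_eq_norm_sq, norm_cm η hb.ne']
        norm_num
      calc cm η a = cm η a * ((starRingEnd ℂ) (cm η b) * cm η b) := by rw [h3, mul_one]
        _ = (cm η a * (starRingEnd ℂ) (cm η b)) * cm η b := by ring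
        _ = cm η b := by rw [h, one_mul]
    have h3 : (φ η - 1) * ∫ ω, φ ω ∂haarProb = 0 := by
      rw [sub_mul, one_mul, h1, sub_self]
    rcases mul_eq_zero.1 h3 with h | h
    · exact absurd (sub_eq_zero.1 h) h2
    · exact h

/-- second moment of a sum of characters -/
theorem second_moment (x D : ℕ) (β : ℕ → ℂ) (hβ : ∀ n, ‖β n‖ ≤ 1) (U V : ℕ → ℕ)
    (hcount : ∀ n, U n ≠ 0 → V n ≠ 0 →
      ((range x).filter (fun m => U n * V m = V n * U m ∧ U n * V m ≠ 0)).card ≤ D) :
    ∫ ω, ‖∑ n ∈ range x, β n * (cm ω (U n) * (starRingEnd ℂ) (cm ω (V n)))‖ ^ 2 ∂haarProb ≤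
      D * x := by
  set T : ℕ → (Nat.Primes → Circle) → ℂ := fun n ω =>
    β n * (cm ω (U n) * (starRingEnd ℂ) (cm ω (V n))) with hT
  have hcont : ∀ n, Continuous (T n) := fun n =>
    continuous_const.mul ((continuous_cm _).mul (Complex.continuous_conj.comp (continuous_cm _)))
  have hpair : ∀ n m, ∫ ω, T n ω * (starRingEnd ℂ) (T m ω) ∂haarProb =
      β n * (starRingEnd ℂ) (β m) * (if U n * V m = V n * U m ∧ U n * V m ≠ 0 then 1 else 0) := by
    intro n m
    rw [← orth, ← integral_const_mul]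
    congr 1
    ext ω
    simp only [hT, map_mul, cm_mul, Complex.conj_conj]
    ring
  have hsq : ∀ ω, ((‖∑ n ∈ range x, T n ω‖ ^ 2 : ℝ) : ℂ) =
      ∑ n ∈ range x, ∑ m ∈ range x, T n ω * (starRingEnd ℂ) (T m ω) := by
    intro ω
    rw [← Complex.normSq_eq_norm_sq, ← Complex.mul_conj, map_sum, sum_mul_sum]
  have hint : ((∫ ω, ‖∑ n ∈ range x, T n ω‖ ^ 2 ∂haarProb : ℝ) : ℂ) =
      ∑ n ∈ range x, ∑ m ∈ range x, β n * (starRingEnd ℂ) (β m) *
        (if U n * V m = V n * U m ∧ U n * V m ≠ 0 then 1 else 0) := by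
    rw [← integral_complex_ofReal]
    simp_rw [hsq]
    rw [integral_finsetSum]
    · apply sum_congr rfl
      intro n _
      rw [integral_finsetSum]
      · exact sum_congr rfl fun m _ => hpair n m
      · intro m _
        exact integrable_of_continuous ((hcont n).mul (Complex.continuous_conj.comp (hcont m)))
    · intro n _
      exact integrable_of_continuous (continuous_finsetSum _ fun m _ =>
        (hcont n).mul (Complex.continuous_conj.comp (hcont m)))
  have hnn : 0 ≤ ∫ ω, ‖∑ n ∈ range x, T n ω‖ ^ 2 ∂haarProb :=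
    integral_nonneg fun ω => by positivity
  have h1 : ‖((∫ ω, ‖∑ n ∈ range x, T n ω‖ ^ 2 ∂haarProb : ℝ) : ℂ)‖ ≤ D * x := by
    rw [hint]
    calc ‖∑ n ∈ range x, ∑ m ∈ range x, β n * (starRingEnd ℂ) (β m) *
        (if U n * V m = V n * U m ∧ U n * V m ≠ 0 then (1 : ℂ) else 0)‖
        ≤ ∑ n ∈ range x, ∑ m ∈ range x, (if U n * V m = V n * U m ∧ U n * V m ≠ 0
            then (1 : ℝ) else 0) := by
          refine (norm_sum_le _ _).trans (sum_le_sum fun n _ => ?_)
          refine (norm_sum_le _ _).trans (sum_le_sum fun m _ => ?_)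
          rw [norm_mul, norm_mul, RCLike.norm_conj]
          have h2 : ‖β n‖ * ‖β m‖ ≤ 1 := mul_le_one₀ (hβ n) (norm_nonneg _) (hβ m)
          split_ifs
          · rw [norm_one, mul_one]; exact h2
          · rw [norm_zero, mul_zero]
      _ ≤ ∑ n ∈ range x, (D : ℝ) := by
          apply sum_le_sum
          intro n _
          rw [← sum_filter, sum_const, nsmul_eq_mul, mul_one]
          by_cases hU : U n = 0
          · have : (range x).filter (fun m => U n * V m = V n * U m ∧ U n * V m ≠ 0) = ∅ := by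
              rw [eq_empty_iff_forall_notMem]
              intro m hm
              rw [mem_filter, hU, zero_mul] at hm
              exact hm.2.2 rfl
            rw [this]
            simp
          by_cases hV : V n = 0
          · have : (range x).filter (fun m => U n * V m = V n * U m ∧ U n * V m ≠ 0) = ∅ := by
              rw [eq_empty_iff_forall_notMem]
              intro m hm
              rw [mem_filter, hV, zero_mul] at hm
              exact hm.2.2 hm.2.1
            rw [this]
            simp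
          exact_mod_cast hcount n hU hV
      _ = D * x := by rw [sum_const, nsmul_eq_mul, card_range, mul_comm]
  rw [Complex.norm_real, Real.norm_of_nonneg hnn] at h1
  exact h1

/-- A strong law from second moments. -/
theorem strong_law {Ω : Type*} [MeasurableSpace Ω] (μ : Measure Ω) [IsProbabilityMeasure μ]
    (Z : ℕ → Ω → ℂ) (hm : ∀ n, Measurable (Z n)) (hb : ∀ n ω, ‖Z n ω‖ ≤ 1) (D : ℝ)
    (h2 : ∀ x : ℕ, ∫ ω, ‖∑ n ∈ range x, Z n ω‖ ^ 2 ∂μ ≤ D * x) :
    ∀ᵐ ω ∂μ, Tendsto (fun x : ℕ => (1 / (x : ℂ)) * ∑ n ∈ range x, Z n ω) atTop (𝓝 0) := by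
  set S : ℕ → Ω → ℂ := fun x ω => ∑ n ∈ range x, Z n ω with hS
  have hSm : ∀ x, Measurable (S x) := fun x => Finset.measurable_sum _ fun n _ => hm n
  have hSb : ∀ x ω, ‖S x ω‖ ≤ x := by
    intro x ω
    refine (norm_sum_le _ _).trans ?_
    calc ∑ n ∈ range x, ‖Z n ω‖ ≤ ∑ n ∈ range x, (1 : ℝ) := sum_le_sum fun n _ => hb n ω
      _ = x := by rw [sum_const, nsmul_eq_mul, card_range, mul_one]
  -- the sum over squares
  set Y : ℕ → Ω → ENNReal := fun j ω => ENNReal.ofReal (‖S ((j + 1) ^ 2) ω‖ ^ 2 / ((j : ℝ) + 1) ^ 4)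
    with hY
  have hYm : ∀ j, Measurable (Y j) := fun j =>
    (((hSm _).norm.pow_const 2).div_const _).ennreal_ofReal
  have hYint : ∀ j, ∫⁻ ω, Y j ω ∂μ ≤ ENNReal.ofReal (|D| / ((j : ℝ) + 1) ^ 2) := by
    intro j
    have hnn : ∀ ω, 0 ≤ ‖S ((j + 1) ^ 2) ω‖ ^ 2 / ((j : ℝ) + 1) ^ 4 := fun ω => by positivity
    have hint : Integrable (fun ω => ‖S ((j + 1) ^ 2) ω‖ ^ 2 / ((j : ℝ) + 1) ^ 4) μ := by
      apply Integrable.of_bound (((hSm _).norm.pow_const 2).div_const _).aestronglyMeasurable
        ((((j + 1) ^ 2 : ℕ) : ℝ) ^ 2 / ((j : ℝ) + 1) ^ 4)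
      apply Eventually.of_forall
      intro ω
      rw [Real.norm_of_nonneg (hnn ω)]
      have := hSb ((j + 1) ^ 2) ω
      gcongr
    rw [← ofReal_integral_eq_lintegral_ofReal hint (Eventually.of_forall hnn)]
    apply ENNReal.ofReal_le_ofReal
    rw [integral_div]
    have h3 := h2 ((j + 1) ^ 2)
    rw [div_le_div_iff₀ (by positivity) (by positivity)]
    have h4 : D ≤ |D| := le_abs_self D
    have h5 : ∫ ω, ‖S ((j + 1) ^ 2) ω‖ ^ 2 ∂μ ≤ |D| * ((j : ℝ) + 1) ^ 2 := by
      refine h3.trans ?_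
      push_cast
      gcongr
    calc (∫ ω, ‖S ((j + 1) ^ 2) ω‖ ^ 2 ∂μ) * ((j : ℝ) + 1) ^ 2
        ≤ (|D| * ((j : ℝ) + 1) ^ 2) * ((j : ℝ) + 1) ^ 2 := by gcongr
      _ = |D| * ((j : ℝ) + 1) ^ 4 := by ring
  have hfin : ∫⁻ ω, ∑' j, Y j ω ∂μ ≠ ⊤ := by
    rw [lintegral_tsum fun j => (hYm j).aemeasurable]
    refine ne_top_of_le_ne_top ?_ (ENNReal.tsum_le_tsum hYint)
    have hsum : Summable (fun j : ℕ => |D| / ((j : ℝ) + 1) ^ 2) := by
      have h3 : Summable (fun j : ℕ => 1 / (j : ℝ) ^ 2) :=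
        Real.summable_one_div_nat_pow.2 (by norm_num)
      have h4 := (summable_nat_add_iff 1).2 h3
      have h5 := h4.mul_left |D|
      refine h5.congr (fun j => ?_)
      push_cast
      ring
    rw [← ENNReal.ofReal_tsum_of_nonneg (fun j => by positivity) hsum]
    exact ENNReal.ofReal_ne_top
  have hae := ae_lt_top (Measurable.ennreal_tsum hYm) hfin
  filter_upwards [hae] with ω hω
  have hY0 : Tendsto (fun j => Y j ω) atTop (𝓝 0) :=
    ENNReal.tendsto_atTop_zero_of_tsum_ne_top hω.ne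
  have hR0 : Tendsto (fun j : ℕ => ‖S ((j + 1) ^ 2) ω‖ ^ 2 / ((j : ℝ) + 1) ^ 4) atTop (𝓝 0) := by
    have h3 := (ENNReal.tendsto_toReal ENNReal.zero_ne_top).comp hY0
    simp only [ENNReal.toReal_zero] at h3
    refine h3.congr (fun j => ?_)
    simp only [Function.comp_apply, hY]
    rw [ENNReal.toReal_ofReal (by positivity)]
  have hR1 : Tendsto (fun j : ℕ => ‖S ((j + 1) ^ 2) ω‖ / ((j : ℝ) + 1) ^ 2) atTop (𝓝 0) := by
    have h3 := (Real.continuous_sqrt.tendsto 0).comp hR0
    rw [Real.sqrt_zero] at h3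
    refine h3.congr (fun j => ?_)
    simp only [Function.comp_apply]
    have : ‖S ((j + 1) ^ 2) ω‖ ^ 2 / ((j : ℝ) + 1) ^ 4 =
        (‖S ((j + 1) ^ 2) ω‖ / ((j : ℝ) + 1) ^ 2) ^ 2 := by
      rw [div_pow, ← pow_mul]
    rw [this, Real.sqrt_sq (by positivity)]
  have hR2 : Tendsto (fun j : ℕ => ‖S (j ^ 2) ω‖ / (j : ℝ) ^ 2) atTop (𝓝 0) := by
    rw [← tendsto_add_atTop_iff_nat 1]
    refine hR1.congr (fun j => ?_)
    push_cast
    rfl
  -- interpolation
  have hsqrt : Tendsto Nat.sqrt atTop atTop := by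
    apply tendsto_atTop_atTop.2
    intro b
    exact ⟨b * b, fun a ha => Nat.le_sqrt.2 ha⟩
  have hR3 : Tendsto (fun x : ℕ => ‖S ((Nat.sqrt x) ^ 2) ω‖ / (Nat.sqrt x : ℝ) ^ 2 +
      3 / (Nat.sqrt x : ℝ)) atTop (𝓝 (0 + 0)) := by
    apply Tendsto.add
    · exact hR2.comp hsqrt
    · exact (tendsto_const_div_atTop_nhds_zero_nat (3 : ℝ)).comp hsqrt
  rw [add_zero] at hR3
  apply squeeze_zero_norm' _ hR3
  filter_upwards [eventually_ge_atTop 1] with x hx
  set j := Nat.sqrt x with hj
  have hj1 : 1 ≤ j := by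
    rw [hj, Nat.le_sqrt]
    omega
  have hjR : (1 : ℝ) ≤ j := by exact_mod_cast hj1
  have hjx : j ^ 2 ≤ x := by
    rw [sq]
    exact Nat.sqrt_le x
  have hxj : x ≤ j ^ 2 + 2 * j := by
    have := Nat.sqrt_le_add x
    rw [← hj] at this
    nlinarith
  have hdiff : ‖S x ω - S (j ^ 2) ω‖ ≤ 2 * j := by
    have h3 : S x ω - S (j ^ 2) ω = ∑ n ∈ Ico (j ^ 2) x, Z n ω := by
      simp only [hS]
      rw [sum_Ico_eq_sub _ hjx]
    rw [h3]
    refine (norm_sum_le _ _).trans ?_
    calc ∑ n ∈ Ico (j ^ 2) x, ‖Z n ω‖ ≤ ∑ n ∈ Ico (j ^ 2) x, (1 : ℝ) :=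
          sum_le_sum fun n _ => hb n ω
      _ = ((x - j ^ 2 : ℕ) : ℝ) := by
          rw [sum_const, nsmul_eq_mul, Nat.card_Ico, mul_one]
      _ ≤ 2 * j := by
          have : x - j ^ 2 ≤ 2 * j := by omega
          exact_mod_cast this
  have hxR : (0 : ℝ) < x := by exact_mod_cast hx
  have hj2x : (j : ℝ) ^ 2 ≤ x := by exact_mod_cast hjx
  rw [norm_mul, norm_div, norm_one, Complex.norm_natCast]
  calc 1 / (x : ℝ) * ‖∑ n ∈ range x, Z n ω‖ ≤ 1 / (j : ℝ) ^ 2 * (‖S (j ^ 2) ω‖ + 2 * j) := by
        have h4 : ‖∑ n ∈ range x, Z n ω‖ ≤ ‖S (j ^ 2) ω‖ + 2 * j := by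
          have h5 : ∑ n ∈ range x, Z n ω = S (j ^ 2) ω + (S x ω - S (j ^ 2) ω) := by
            simp only [hS]; ring
          rw [h5]
          exact (norm_add_le _ _).trans (by linarith)
        gcongr
    _ = ‖S (j ^ 2) ω‖ / (j : ℝ) ^ 2 + 2 / j := by
        field_simp
    _ ≤ ‖S (j ^ 2) ω‖ / (j : ℝ) ^ 2 + 3 / j := by
        gcongr
        norm_num

end Pool.Agent.H33.Ell
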