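import Mathlib
import Pool.Agent.H33.Ell.Rand
import Pool.Agent.H33.Ell.Poly
import Pool.Agent.H2.EllMainB

/-!
Correlations of almost every completely multiplicative unimodular function against every bounded
multiplicative function.
-/

namespace Pool.Agent.H33.Ell

open Finset Filter Topology MeasureTheory

variable {k : ℕ}

theorem zpow_split (z : ℂ) (hz : ‖z‖ = 1 ∨ z = 0) (e : ℤ) :
    z ^ e = z ^ e.toNat * ((starRingEnd ℂ) z) ^ (-e).toNat := by
  have hinv : z⁻¹ = (starRingEnd ℂ) z := by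
    rcases hz with hz | rfl
    · exact Complex.inv_eq_conj hz
    · simp
  rcases le_total 0 e with he | he
  · obtain ⟨n, rfl⟩ := Int.eq_ofNat_of_zero_le he
    have h1 : (-(n : ℤ)).toNat = 0 := Int.toNat_of_nonpos (by omega)
    rw [h1, pow_zero, mul_one, Int.toNat_natCast, zpow_natCast]
  · obtain ⟨n, hn⟩ := Int.eq_ofNat_of_zero_le (show 0 ≤ -e by omega)
    have h1 : e = -(n : ℤ) := by omega
    subst h1
    have h2 : (-(n : ℤ)).toNat = 0 := Int.toNat_of_nonpos (by omega)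
    rw [h2, pow_zero, one_mul, neg_neg, Int.toNat_natCast, zpow_neg, zpow_natCast, ← inv_pow, hinv]

/-- the factor carrying the fixed bounded function and the random function -/
noncomputable def FB (b : ℕ → ℂ) (h e : Fin k → ℤ) (c : ℤ) (ω : Nat.Primes → Circle) (N : ℕ) : ℂ :=
  b (((N : ℤ) - c).toNat) * ∏ j, cm ω ((N : ℤ) + h j).toNat ^ e j

theorem norm_cm_cases (ω : Nat.Primes → Circle) (n : ℕ) : ‖cm ω n‖ = 1 ∨ cm ω n = 0 := by
  rcases Nat.eq_zero_or_pos n with rfl | hn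
  · exact Or.inr (cm_zero ω)
  · exact Or.inl (norm_cm ω hn.ne')

theorem norm_zpow_cm_le (ω : Nat.Primes → Circle) (n : ℕ) (e : ℤ) : ‖cm ω n ^ e‖ ≤ 1 := by
  rw [zpow_split _ (norm_cm_cases ω n), norm_mul, norm_pow, norm_pow, RCLike.norm_conj]
  have h := norm_cm_le ω n
  exact mul_le_one₀ (pow_le_one₀ (norm_nonneg _) h) (by positivity) (pow_le_one₀ (norm_nonneg _) h)

theorem norm_FB_le (b : ℕ → ℂ) (hb : ∀ n, ‖b n‖ ≤ 1) (h e : Fin k → ℤ) (c : ℤ)
    (ω : Nat.Primes → Circle) (N : ℕ) : ‖FB b h e c ω N‖ ≤ 1 := by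
  unfold FB
  rw [norm_mul, norm_prod]
  exact mul_le_one₀ (hb _) (prod_nonneg fun _ _ => norm_nonneg _)
    (prod_le_one (fun _ _ => norm_nonneg _) fun j _ => norm_zpow_cm_le ω _ _)

theorem FB_pair (b : ℕ → ℂ) (h e : Fin k → ℤ) (c : ℤ) (ω : Nat.Primes → Circle) (P Q m : ℕ) :
    FB b h e c ω (P * m) * (starRingEnd ℂ) (FB b h e c ω (Q * m)) =
      (b ((((P * m : ℕ) : ℤ) - c).toNat) * (starRingEnd ℂ) (b ((((Q * m : ℕ) : ℤ) - c).toNat))) *
        (cm ω (NN h P Q (fun j => (e j).toNat) (fun j => (-(e j)).toNat) m) *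
          (starRingEnd ℂ) (cm ω (NN h P Q (fun j => (-(e j)).toNat) (fun j => (e j).toNat) m))) := by
  have key : (∏ j, cm ω (((P * m : ℕ) : ℤ) + h j).toNat ^ e j) *
      (starRingEnd ℂ) (∏ j, cm ω (((Q * m : ℕ) : ℤ) + h j).toNat ^ e j) =
      cm ω (NN h P Q (fun j => (e j).toNat) (fun j => (-(e j)).toNat) m) *
          (starRingEnd ℂ) (cm ω (NN h P Q (fun j => (-(e j)).toNat) (fun j => (e j).toNat) m)) := by
    unfold NN
    rw [cm_prod, cm_prod, map_prod, map_prod, ← prod_mul_distrib, ← prod_mul_distrib]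
    apply prod_congr rfl
    intro j _
    rw [zpow_split _ (norm_cm_cases ω _), zpow_split _ (norm_cm_cases ω _), cm_mul, cm_mul, cm_pow,
      cm_pow, cm_pow, cm_pow]
    simp only [map_mul, map_pow, Complex.conj_conj, Nat.cast_mul]
    ring
  unfold FB
  rw [map_mul, ← key]
  ring

theorem alt_e (e : Fin k → ℤ) (he : ∀ j, e j ≠ 0) :
    Alt (fun j => (e j).toNat) (fun j => (-(e j)).toNat) := by
  intro j
  have := he j
  rcases lt_or_gt_of_ne this with h | h
  · right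
    constructor
    · exact Int.toNat_of_nonpos h.le
    · show (-(e j)).toNat ≠ 0
      omega
  · left
    constructor
    · show (e j).toNat ≠ 0
      omega
    · exact Int.toNat_of_nonpos (by omega)

theorem ae_pair (b : ℕ → ℂ) (hb : ∀ n, ‖b n‖ ≤ 1) (h e : Fin (k + 1) → ℤ) (c : ℤ)
    (hinj : Function.Injective h) (hne : ∀ j, h j ≠ 0) (he : ∀ j, e j ≠ 0) (P Q : ℕ) (hP : 0 < P)
    (hQ : 0 < Q) (hPQ : P ≠ Q) :
    ∀ᵐ ω ∂haarProb, Tendsto (fun x : ℕ => (1 / (x : ℂ)) * ∑ m ∈ range x,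
      FB b h e c ω (P * m) * (starRingEnd ℂ) (FB b h e c ω (Q * m))) atTop (𝓝 0) := by
  set u : Fin (k + 1) → ℕ := fun j => (e j).toNat with hu
  set v : Fin (k + 1) → ℕ := fun j => (-(e j)).toNat with hv
  set β : ℕ → ℂ := fun m =>
    b ((((P * m : ℕ) : ℤ) - c).toNat) * (starRingEnd ℂ) (b ((((Q * m : ℕ) : ℤ) - c).toNat)) with hβd
  have hβ : ∀ n, ‖β n‖ ≤ 1 := by
    intro n
    simp only [hβd]
    rw [norm_mul, RCLike.norm_conj]
    exact mul_le_one₀ (hb _) (norm_nonneg _) (hb _)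
  have huv : Alt u v := alt_e e he
  have hZ : ∀ n (ω : Nat.Primes → Circle),
      ‖β n * (cm ω (NN h P Q u v n) * (starRingEnd ℂ) (cm ω (NN h P Q v u n)))‖ ≤ 1 := by
    intro n ω
    rw [norm_mul (β n), norm_mul (cm ω _), RCLike.norm_conj]
    exact mul_le_one₀ (hβ n) (mul_nonneg (norm_nonneg _) (norm_nonneg _))
      (mul_le_one₀ (norm_cm_le ω _) (norm_nonneg _) (norm_cm_le ω _))
  have hmain := strong_law haarProb
    (fun n ω => β n * (cm ω (NN h P Q u v n) * (starRingEnd ℂ) (cm ω (NN h P Q v u n))))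
    (fun n => (continuous_const.mul ((continuous_cm _).mul
      (Complex.continuous_conj.comp (continuous_cm _)))).measurable)
    hZ
    ((∑ j, (u j + v j) : ℕ) : ℝ)
    (fun x => second_moment x (∑ j, (u j + v j)) β hβ (NN h P Q u v) (NN h P Q v u)
      (fun n hU hV => count_le (Nat.succ_pos k) h hinj hne P Q hP hQ hPQ u v huv x n hU hV))
  filter_upwards [hmain] with ω hω
  refine hω.congr (fun x => ?_)
  congr 1
  apply sum_congr rfl
  intro m _
  exact (FB_pair b h e c ω P Q m).symm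

theorem ae_all (b : ℕ → ℂ) (hb : ∀ n, ‖b n‖ ≤ 1) :
    ∀ᵐ ω ∂haarProb, ∀ (k : ℕ) (h e : Fin (k + 1) → ℤ) (c : ℤ) (P Q : ℕ),
      (Function.Injective h ∧ (∀ j, h j ≠ 0) ∧ (∀ j, e j ≠ 0) ∧ 0 < P ∧ 0 < Q ∧ P ≠ Q) →
      Tendsto (fun x : ℕ => (1 / (x : ℂ)) * ∑ m ∈ range x,
        FB b h e c ω (P * m) * (starRingEnd ℂ) (FB b h e c ω (Q * m))) atTop (𝓝 0) := by
  rw [ae_all_iff]
  intro k
  rw [ae_all_iff]
  intro h
  rw [ae_all_iff]
  intro e
  rw [ae_all_iff]
  intro c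
  rw [ae_all_iff]
  intro P
  rw [ae_all_iff]
  intro Q
  rw [Filter.eventually_imp_distrib_left]
  rintro ⟨hinj, hne, he, hP, hQ, hPQ⟩
  exact ae_pair b hb h e c hinj hne he P Q hP hQ hPQ

theorem main (b : ℕ → ℂ) (hb : ∀ n, ‖b n‖ ≤ 1) :
    ∀ᵐ ω ∂haarProb, ∀ (k : ℕ) (h e : Fin (k + 1) → ℤ) (h₀ : ℤ),
      Function.Injective h → (∀ j, e j ≠ 0) → (∀ j, h j ≠ h₀) →
      ∀ f : ArithmeticFunction ℂ, f.IsMultiplicative → (∀ n, ‖f n‖ ≤ 1) →
      Tendsto (fun N : ℕ => (1 / (N : ℂ)) * ∑ n ∈ Finset.Icc 1 N,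
        b n * (∏ j, cm ω ((n : ℤ) + h j).toNat ^ e j) * f ((n : ℤ) + h₀).toNat) atTop (𝓝 0) := by
  filter_upwards [ae_all b hb] with ω hω
  intro k h e h₀ hinj he hh₀ f hf hfb
  set h' : Fin (k + 1) → ℤ := fun j => h j - h₀ with hh'
  have hinj' : Function.Injective h' := by
    intro i j hij
    simp only [hh'] at hij
    exact hinj (by linarith)
  have hne' : ∀ i, h' i ≠ 0 := by
    intro i hi
    simp only [hh'] at hi
    exact hh₀ i (by linarith)
  have hkat := Pool.H2.Ell.katai (FB b h' e h₀ ω) (fun n => f n) (norm_FB_le b hb h' e h₀ ω)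
    (Pool.H2.Ell.MB_of hf hfb) 0
    (fun P Q hP hQ _ _ hPQ => hω k h' e h₀ P Q ⟨hinj', hne', he, hP.pos, hQ.pos, hPQ⟩)
  set A : ℕ → ℂ := fun n => f n * FB b h' e h₀ ω n with hA
  have hAb : ∀ n, ‖A n‖ ≤ 1 := by
    intro n
    rw [hA, norm_mul]
    exact mul_le_one₀ (hfb n) (norm_nonneg _) (norm_FB_le b hb h' e h₀ ω n)
  set B : ℕ → ℂ := fun n => b n * (∏ j, cm ω ((n : ℤ) + h j).toNat ^ e j) *
    f ((n : ℤ) + h₀).toNat with hB
  have hBb : ∀ n, ‖B n‖ ≤ 1 := by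
    intro n
    rw [hB, norm_mul, norm_mul, norm_prod]
    exact mul_le_one₀ (mul_le_one₀ (hb n) (prod_nonneg fun _ _ => norm_nonneg _)
      (prod_le_one (fun _ _ => norm_nonneg _) fun j _ => norm_zpow_cm_le ω _ _)) (norm_nonneg _)
      (hfb _)
  have hsplit : ∀ (n : ℕ) (N : ℕ), (N : ℤ) = n + h₀ → B n = A N := by
    intro n N hN
    simp only [hA, hB, FB, hh']
    rw [← hN, Int.toNat_natCast]
    have h1 : ((N : ℤ) - h₀).toNat = n := by omega
    have h2 : ∀ j, (n : ℤ) + h j = (N : ℤ) + (h j - h₀) := fun j => by omega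
    rw [h1]
    simp only [h2]
    ring
  have hBlim : Tendsto (fun x : ℕ => (1 / (x : ℂ)) * ∑ n ∈ range x, B n) atTop (𝓝 0) := by
    rcases le_total 0 h₀ with h0 | h0
    · obtain ⟨s, hs'⟩ := Int.eq_ofNat_of_zero_le h0
      have h1 : ∀ n, B n = A (n + s) := by
        intro n
        apply hsplit
        push_cast
        rw [hs']
      have h2 := (Pool.H2.Ell.mean_shift A hAb s).2 hkat
      refine h2.congr (fun x => ?_)
      congr 1
      exact sum_congr rfl (fun n _ => (h1 n).symm)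
    · obtain ⟨s, hs'⟩ := Int.eq_ofNat_of_zero_le (show 0 ≤ -h₀ by linarith)
      have h1 : ∀ n, B (n + s) = A n := by
        intro n
        apply hsplit
        push_cast
        omega
      rw [← Pool.H2.Ell.mean_shift B hBb s]
      refine hkat.congr (fun x => ?_)
      congr 1
      exact sum_congr rfl (fun n _ => (h1 n).symm)
  rw [← Pool.H2.Ell.mean_shift B hBb 1] at hBlim
  refine hBlim.congr (fun x => ?_)
  congr 1
  rw [Finset.range_eq_Ico, Finset.sum_Ico_add' B 0 x 1]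
  apply sum_congr _ (fun _ _ => rfl)
  ext n
  simp only [mem_Ico, mem_Icc]
  omega

end Pool.Agent.H33.Ell
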