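import Mathlib
import Pool.Agent.H33.Ell.Rand

/-!
Completely multiplicative functions with values in a compact subgroup `K` of the circle, with Haar
measure on the families of elements of `K` indexed by the primes.
-/

namespace Pool.Agent.H33.Ell

open Finset Filter Topology MeasureTheory TopologicalSpace

variable (K : Subgroup Circle) [CompactSpace K]

/-- normalised Haar measure on the compact group of all families of elements of `K`. -/
noncomputable def haarK : Measure (Nat.Primes → K) :=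
  Measure.haarMeasure (⊤ : PositiveCompacts (Nat.Primes → K))

instance : IsProbabilityMeasure (haarK K) :=
  ⟨by
    unfold haarK
    have := Measure.haarMeasure_self (K₀ := (⊤ : PositiveCompacts (Nat.Primes → K)))
    simpa using this⟩

instance : (haarK K).IsMulLeftInvariant := by
  unfold haarK
  infer_instance

variable {K}

/-- forget that the values are in `K` -/
def lift (ω : Nat.Primes → K) : Nat.Primes → Circle := fun p => (ω p : Circle)

omit [CompactSpace K] in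
theorem lift_mul (ω η : Nat.Primes → K) : lift (ω * η) = lift ω * lift η := rfl

omit [CompactSpace K] in
theorem continuous_lift : Continuous (lift : (Nat.Primes → K) → Nat.Primes → Circle) :=
  continuous_pi fun p => continuous_subtype_val.comp (continuous_apply p)

omit [CompactSpace K] in
theorem continuous_cmK (n : ℕ) : Continuous (fun ω : Nat.Primes → K => cm (lift ω) n) :=
  (continuous_cm n).comp continuous_lift

theorem integrable_of_continuousK {f : (Nat.Primes → K) → ℂ} (hf : Continuous f) :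
    Integrable f (haarK K) := by
  obtain ⟨C, hC⟩ := isCompact_univ.exists_bound_of_continuousOn hf.continuousOn
  exact Integrable.of_bound hf.aestronglyMeasurable C
    (Eventually.of_forall fun ω => hC ω (Set.mem_univ _))

/-- orthogonality of different characters -/
theorem orthK {a b : ℕ} (hb : b ≠ 0) {η : Nat.Primes → K}
    (hη : cm (lift η) a ≠ cm (lift η) b) :
    ∫ ω, cm (lift ω) a * (starRingEnd ℂ) (cm (lift ω) b) ∂(haarK K) = 0 := by
  set φ : (Nat.Primes → K) → ℂ := fun ω => cm (lift ω) a * (starRingEnd ℂ) (cm (lift ω) b) with hφ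
  have hmul : ∀ ω, φ (η * ω) = φ η * φ ω := by
    intro ω
    simp only [hφ, lift_mul]
    rw [cm_mul_left, cm_mul_left, map_mul]
    ring
  have h1 : ∫ ω, φ (η * ω) ∂(haarK K) = ∫ ω, φ ω ∂(haarK K) :=
    integral_mul_left_eq_self φ η
  simp_rw [hmul] at h1
  rw [integral_const_mul] at h1
  have h2 : φ η ≠ 1 := by
    intro h
    apply hη
    simp only [hφ] at h
    have h3 : (starRingEnd ℂ) (cm (lift η) b) * cm (lift η) b = 1 := by
      rw [mul_comm, Complex.mul_conj, Complex.normSq_eq_norm_sq, norm_cm (lift η) hb]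
      norm_num
    calc cm (lift η) a = cm (lift η) a * ((starRingEnd ℂ) (cm (lift η) b) * cm (lift η) b) := by
          rw [h3, mul_one]
      _ = (cm (lift η) a * (starRingEnd ℂ) (cm (lift η) b)) * cm (lift η) b := by ring
      _ = cm (lift η) b := by rw [h, one_mul]
  have h3 : (φ η - 1) * ∫ ω, φ ω ∂(haarK K) = 0 := by
    rw [sub_mul, one_mul, h1, sub_self]
  rcases mul_eq_zero.1 h3 with h | h
  · exact absurd (sub_eq_zero.1 h) h2
  · exact h

/-- two nonzero integers that no family separates -/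
def Same (K : Subgroup Circle) (a b : ℕ) : Prop :=
  a ≠ 0 ∧ b ≠ 0 ∧ ∀ η : Nat.Primes → K, cm (lift η) a = cm (lift η) b

theorem orth_le (a b : ℕ) [Decidable (Same K a b)] :
    ‖∫ ω, cm (lift ω) a * (starRingEnd ℂ) (cm (lift ω) b) ∂(haarK K)‖ ≤
      if Same K a b then 1 else 0 := by
  split_ifs with h
  · calc ‖∫ ω, cm (lift ω) a * (starRingEnd ℂ) (cm (lift ω) b) ∂(haarK K)‖
        ≤ ∫ ω, ‖cm (lift ω) a * (starRingEnd ℂ) (cm (lift ω) b)‖ ∂(haarK K) :=
          norm_integral_le_integral_norm _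
      _ ≤ ∫ _ω : Nat.Primes → K, (1 : ℝ) ∂(haarK K) := by
          apply integral_mono
          · exact (integrable_of_continuousK ((continuous_cmK a).mul
              (Complex.continuous_conj.comp (continuous_cmK b)))).norm
          · exact integrable_const _
          · intro ω
            show ‖cm (lift ω) a * (starRingEnd ℂ) (cm (lift ω) b)‖ ≤ 1
            rw [norm_mul, RCLike.norm_conj]
            exact mul_le_one₀ (norm_cm_le _ _) (norm_nonneg _) (norm_cm_le _ _)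
      _ = 1 := by simp
  · by_cases ha : a = 0
    · subst ha
      simp [cm_zero]
    by_cases hb : b = 0
    · subst hb
      simp [cm_zero]
    have h1 : ¬ ∀ η : Nat.Primes → K, cm (lift η) a = cm (lift η) b := fun h2 => h ⟨ha, hb, h2⟩
    push Not at h1
    obtain ⟨η, hη⟩ := h1
    rw [orthK hb hη, norm_zero]

/-- second moment of a sum of characters -/
theorem second_momentK (x : ℕ) (D : ℝ) (hD : 0 ≤ D) (β : ℕ → ℂ) (hβ : ∀ n, ‖β n‖ ≤ 1) (U V : ℕ → ℕ)
    [∀ a b, Decidable (Same K a b)]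
    (hcount : ∀ n < x, U n ≠ 0 → V n ≠ 0 →
      (((range x).filter (fun m => Same K (U n * V m) (V n * U m))).card : ℝ) ≤ D) :
    ∫ ω, ‖∑ n ∈ range x, β n * (cm (lift ω) (U n) * (starRingEnd ℂ) (cm (lift ω) (V n)))‖ ^ 2
      ∂(haarK K) ≤ D * x := by
  set T : ℕ → (Nat.Primes → K) → ℂ := fun n ω =>
    β n * (cm (lift ω) (U n) * (starRingEnd ℂ) (cm (lift ω) (V n))) with hT
  have hcont : ∀ n, Continuous (T n) := fun n =>
    continuous_const.mul ((continuous_cmK _).mul (Complex.continuous_conj.comp (continuous_cmK _)))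
  have hpair : ∀ n m, ‖∫ ω, T n ω * (starRingEnd ℂ) (T m ω) ∂(haarK K)‖ ≤
      if Same K (U n * V m) (V n * U m) then 1 else 0 := by
    intro n m
    have h1 : ∫ ω, T n ω * (starRingEnd ℂ) (T m ω) ∂(haarK K) = β n * (starRingEnd ℂ) (β m) *
        ∫ ω, cm (lift ω) (U n * V m) * (starRingEnd ℂ) (cm (lift ω) (V n * U m)) ∂(haarK K) := by
      rw [← integral_const_mul]
      congr 1
      ext ω
      simp only [hT, map_mul, cm_mul, Complex.conj_conj]
      ring
    rw [h1, norm_mul, norm_mul, RCLike.norm_conj]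
    have h2 : ‖β n‖ * ‖β m‖ ≤ 1 := mul_le_one₀ (hβ n) (norm_nonneg _) (hβ m)
    calc ‖β n‖ * ‖β m‖ * ‖∫ ω, cm (lift ω) (U n * V m) *
          (starRingEnd ℂ) (cm (lift ω) (V n * U m)) ∂(haarK K)‖
        ≤ 1 * ‖∫ ω, cm (lift ω) (U n * V m) *
          (starRingEnd ℂ) (cm (lift ω) (V n * U m)) ∂(haarK K)‖ := by gcongr
      _ ≤ _ := by
          rw [one_mul]
          exact orth_le _ _
  have hsq : ∀ ω, ((‖∑ n ∈ range x, T n ω‖ ^ 2 : ℝ) : ℂ) =
      ∑ n ∈ range x, ∑ m ∈ range x, T n ω * (starRingEnd ℂ) (T m ω) := by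
    intro ω
    rw [← Complex.normSq_eq_norm_sq, ← Complex.mul_conj, map_sum, sum_mul_sum]
  have hint : ((∫ ω, ‖∑ n ∈ range x, T n ω‖ ^ 2 ∂(haarK K) : ℝ) : ℂ) =
      ∑ n ∈ range x, ∑ m ∈ range x, ∫ ω, T n ω * (starRingEnd ℂ) (T m ω) ∂(haarK K) := by
    rw [← integral_complex_ofReal]
    simp_rw [hsq]
    rw [integral_finsetSum]
    · apply sum_congr rfl
      intro n _
      rw [integral_finsetSum]
      intro m _
      exact integrable_of_continuousK ((hcont n).mul (Complex.continuous_conj.comp (hcont m)))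
    · intro n _
      exact integrable_of_continuousK (continuous_finsetSum _ fun m _ =>
        (hcont n).mul (Complex.continuous_conj.comp (hcont m)))
  have hnn : 0 ≤ ∫ ω, ‖∑ n ∈ range x, T n ω‖ ^ 2 ∂(haarK K) :=
    integral_nonneg fun ω => by positivity
  have h1 : ‖((∫ ω, ‖∑ n ∈ range x, T n ω‖ ^ 2 ∂(haarK K) : ℝ) : ℂ)‖ ≤ D * x := by
    rw [hint]
    calc ‖∑ n ∈ range x, ∑ m ∈ range x, ∫ ω, T n ω * (starRingEnd ℂ) (T m ω) ∂(haarK K)‖
        ≤ ∑ n ∈ range x, ∑ m ∈ range x, (if Same K (U n * V m) (V n * U m)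
            then (1 : ℝ) else 0) := by
          refine (norm_sum_le _ _).trans (sum_le_sum fun n _ => ?_)
          exact (norm_sum_le _ _).trans (sum_le_sum fun m _ => hpair n m)
      _ ≤ ∑ n ∈ range x, D := by
          apply sum_le_sum
          intro n hn
          rw [← sum_filter, sum_const, nsmul_eq_mul, mul_one]
          by_cases hU : U n = 0
          · have : (range x).filter (fun m => Same K (U n * V m) (V n * U m)) = ∅ := by
              rw [eq_empty_iff_forall_notMem]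
              intro m hm
              rw [mem_filter, hU, zero_mul] at hm
              exact hm.2.1 rfl
            rw [this]
            simpa using hD
          by_cases hV : V n = 0
          · have : (range x).filter (fun m => Same K (U n * V m) (V n * U m)) = ∅ := by
              rw [eq_empty_iff_forall_notMem]
              intro m hm
              rw [mem_filter, hV, zero_mul] at hm
              exact hm.2.2.1 rfl
            rw [this]
            simpa using hD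
          exact hcount n (mem_range.1 hn) hU hV
      _ = D * x := by rw [sum_const, nsmul_eq_mul, card_range, mul_comm]
  rw [Complex.norm_real, Real.norm_of_nonneg hnn] at h1
  exact h1

theorem exists_root : ∃ r : ℕ → ℕ, (∀ x, (r x) ^ 8 ≤ x ∧ x < (r x + 1) ^ 8) ∧
    Tendsto r atTop atTop := by
  refine ⟨fun x => Nat.sqrt (Nat.sqrt (Nat.sqrt x)), ?_, ?_⟩
  · intro x
    set a := Nat.sqrt x with ha
    set b := Nat.sqrt a with hb
    set c := Nat.sqrt b with hc
    have a1 : a ^ 2 ≤ x := by rw [sq]; exact Nat.sqrt_le x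
    have b1 : b ^ 2 ≤ a := by rw [sq]; exact Nat.sqrt_le a
    have c1 : c ^ 2 ≤ b := by rw [sq]; exact Nat.sqrt_le b
    have a2 : x < (a + 1) ^ 2 := by rw [sq]; exact Nat.lt_succ_sqrt x
    have b2 : a + 1 ≤ (b + 1) ^ 2 := by rw [sq]; exact Nat.lt_succ_sqrt a
    have c2 : b + 1 ≤ (c + 1) ^ 2 := by rw [sq]; exact Nat.lt_succ_sqrt b
    constructor
    · calc c ^ 8 = ((c ^ 2) ^ 2) ^ 2 := by ring
        _ ≤ (b ^ 2) ^ 2 := by gcongr
        _ ≤ a ^ 2 := by gcongr
        _ ≤ x := a1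
    · calc x < (a + 1) ^ 2 := a2
        _ ≤ ((b + 1) ^ 2) ^ 2 := by gcongr
        _ ≤ (((c + 1) ^ 2) ^ 2) ^ 2 := by gcongr
        _ = (c + 1) ^ 8 := by ring
  · have hsqrt : Tendsto Nat.sqrt atTop atTop := by
      apply tendsto_atTop_atTop.2
      intro b
      exact ⟨b * b, fun a ha => Nat.le_sqrt.2 ha⟩
    exact hsqrt.comp (hsqrt.comp hsqrt)

/-- A strong law from second moments along eighth powers. -/
theorem strong_law8 {Ω : Type*} [MeasurableSpace Ω] (μ : Measure Ω) [IsProbabilityMeasure μ]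
    (Z : ℕ → Ω → ℂ) (hm : ∀ n, Measurable (Z n)) (hb : ∀ n ω, ‖Z n ω‖ ≤ 1) (D : ℝ)
    (h2 : ∀ j : ℕ, 1 ≤ j → ∫ ω, ‖∑ n ∈ range (j ^ 8), Z n ω‖ ^ 2 ∂μ ≤ D * (j : ℝ) ^ 14) :
    ∀ᵐ ω ∂μ, Tendsto (fun x : ℕ => (1 / (x : ℂ)) * ∑ n ∈ range x, Z n ω) atTop (𝓝 0) := by
  set S : ℕ → Ω → ℂ := fun x ω => ∑ n ∈ range x, Z n ω with hS
  have hSm : ∀ x, Measurable (S x) := fun x => Finset.measurable_sum _ fun n _ => hm n
  have hSb : ∀ x ω, ‖S x ω‖ ≤ x := by
    intro x ω
    refine (norm_sum_le _ _).trans ?_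
    calc ∑ n ∈ range x, ‖Z n ω‖ ≤ ∑ n ∈ range x, (1 : ℝ) := sum_le_sum fun n _ => hb n ω
      _ = x := by rw [sum_const, nsmul_eq_mul, card_range, mul_one]
  -- the sum over eighth powers
  set Y : ℕ → Ω → ENNReal := fun j ω =>
    ENNReal.ofReal (‖S ((j + 1) ^ 8) ω‖ ^ 2 / ((j : ℝ) + 1) ^ 16) with hY
  have hYm : ∀ j, Measurable (Y j) := fun j =>
    (((hSm _).norm.pow_const 2).div_const _).ennreal_ofReal
  have hYint : ∀ j, ∫⁻ ω, Y j ω ∂μ ≤ ENNReal.ofReal (|D| / ((j : ℝ) + 1) ^ 2) := by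
    intro j
    have hnn : ∀ ω, 0 ≤ ‖S ((j + 1) ^ 8) ω‖ ^ 2 / ((j : ℝ) + 1) ^ 16 := fun ω => by positivity
    have hint : Integrable (fun ω => ‖S ((j + 1) ^ 8) ω‖ ^ 2 / ((j : ℝ) + 1) ^ 16) μ := by
      apply Integrable.of_bound (((hSm _).norm.pow_const 2).div_const _).aestronglyMeasurable
        ((((j + 1) ^ 8 : ℕ) : ℝ) ^ 2 / ((j : ℝ) + 1) ^ 16)
      apply Eventually.of_forall
      intro ω
      rw [Real.norm_of_nonneg (hnn ω)]
      have := hSb ((j + 1) ^ 8) ω
      gcongr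
    rw [← ofReal_integral_eq_lintegral_ofReal hint (Eventually.of_forall hnn)]
    apply ENNReal.ofReal_le_ofReal
    rw [integral_div]
    have h3 := h2 (j + 1) (Nat.succ_pos j)
    rw [div_le_div_iff₀ (by positivity) (by positivity)]
    have h4 : D ≤ |D| := le_abs_self D
    have h5 : ∫ ω, ‖S ((j + 1) ^ 8) ω‖ ^ 2 ∂μ ≤ |D| * ((j : ℝ) + 1) ^ 14 := by
      refine h3.trans ?_
      push_cast
      gcongr
    calc (∫ ω, ‖S ((j + 1) ^ 8) ω‖ ^ 2 ∂μ) * ((j : ℝ) + 1) ^ 2
        ≤ (|D| * ((j : ℝ) + 1) ^ 14) * ((j : ℝ) + 1) ^ 2 := by gcongr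
      _ = |D| * ((j : ℝ) + 1) ^ 16 := by ring
  have hfin : ∫⁻ ω, ∑' j, Y j ω ∂μ ≠ ⊤ := by
    rw [lintegral_tsum fun j => (hYm j).aemeasurable]
    refine ne_top_of_le_ne_top ?_ (ENNReal.tsum_le_tsum hYint)
    have hsum : Summable (fun j : ℕ => |D| / ((j : ℝ) + 1) ^ 2) := by
      have h3 : Summable (fun j : ℕ => 1 / (j : ℝ) ^ 2) :=
        Real.summable_one_div_nat_pow.2 (by norm_num)
      have h4 := (summable_nat_add_iff 1).2 h3
      have h5 := h4.mul_left |D|
      refine h5.congr (fun j => ?_)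
      push_cast
      ring
    rw [← ENNReal.ofReal_tsum_of_nonneg (fun j => by positivity) hsum]
    exact ENNReal.ofReal_ne_top
  have hae := ae_lt_top (Measurable.tsum hYm) hfin
  filter_upwards [hae] with ω hω
  have hY0 : Tendsto (fun j => Y j ω) atTop (𝓝 0) :=
    ENNReal.tendsto_atTop_zero_of_tsum_ne_top hω.ne
  have hR0 : Tendsto (fun j : ℕ => ‖S ((j + 1) ^ 8) ω‖ ^ 2 / ((j : ℝ) + 1) ^ 16) atTop (𝓝 0) := by
    have h3 := (ENNReal.tendsto_toReal ENNReal.zero_ne_top).comp hY0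
    simp only [ENNReal.toReal_zero] at h3
    refine h3.congr (fun j => ?_)
    simp only [Function.comp_apply, hY]
    rw [ENNReal.toReal_ofReal (by positivity)]
  have hR1 : Tendsto (fun j : ℕ => ‖S ((j + 1) ^ 8) ω‖ / ((j : ℝ) + 1) ^ 8) atTop (𝓝 0) := by
    have h3 := (Real.continuous_sqrt.tendsto 0).comp hR0
    rw [Real.sqrt_zero] at h3
    refine h3.congr (fun j => ?_)
    simp only [Function.comp_apply]
    have : ‖S ((j + 1) ^ 8) ω‖ ^ 2 / ((j : ℝ) + 1) ^ 16 =
        (‖S ((j + 1) ^ 8) ω‖ / ((j : ℝ) + 1) ^ 8) ^ 2 := by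
      rw [div_pow, ← pow_mul]
    rw [this, Real.sqrt_sq (by positivity)]
  have hR2 : Tendsto (fun j : ℕ => ‖S (j ^ 8) ω‖ / (j : ℝ) ^ 8) atTop (𝓝 0) := by
    rw [← tendsto_add_atTop_iff_nat 1]
    refine hR1.congr (fun j => ?_)
    push_cast
    rfl
  -- interpolation
  obtain ⟨r, hr, hrt⟩ := exists_root
  have hR3 : Tendsto (fun x : ℕ => ‖S ((r x) ^ 8) ω‖ / (r x : ℝ) ^ 8 +
      255 / (r x : ℝ)) atTop (𝓝 (0 + 0)) := by
    apply Tendsto.add
    · exact hR2.comp hrt
    · exact (tendsto_const_div_atTop_nhds_zero_nat (255 : ℝ)).comp hrt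
  rw [add_zero] at hR3
  apply squeeze_zero_norm' _ hR3
  filter_upwards [eventually_ge_atTop 1, hrt.eventually_ge_atTop 1] with x hx hj1
  set j := r x with hj
  have hjR : (1 : ℝ) ≤ j := by exact_mod_cast hj1
  obtain ⟨hjx, hxj⟩ := hr x
  rw [← hj] at hjx hxj
  have hjx8 : x - j ^ 8 ≤ 255 * j ^ 7 := by
    have e : (j + 1) ^ 8 = j ^ 8 + 8 * j ^ 7 + 28 * j ^ 6 + 56 * j ^ 5 + 70 * j ^ 4 + 56 * j ^ 3 +
        28 * j ^ 2 + 8 * j + 1 := by ring
    have p6 : j ^ 6 ≤ j ^ 7 := Nat.pow_le_pow_right hj1 (by norm_num)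
    have p5 : j ^ 5 ≤ j ^ 7 := Nat.pow_le_pow_right hj1 (by norm_num)
    have p4 : j ^ 4 ≤ j ^ 7 := Nat.pow_le_pow_right hj1 (by norm_num)
    have p3 : j ^ 3 ≤ j ^ 7 := Nat.pow_le_pow_right hj1 (by norm_num)
    have p2 : j ^ 2 ≤ j ^ 7 := Nat.pow_le_pow_right hj1 (by norm_num)
    have p1 : j ^ 1 ≤ j ^ 7 := Nat.pow_le_pow_right hj1 (by norm_num)
    have p0 : 1 ≤ j ^ 7 := Nat.one_le_pow _ _ hj1
    rw [pow_one] at p1
    omega
  have hdiff : ‖S x ω - S (j ^ 8) ω‖ ≤ 255 * (j : ℝ) ^ 7 := by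
    have h3 : S x ω - S (j ^ 8) ω = ∑ n ∈ Ico (j ^ 8) x, Z n ω := by
      simp only [hS]
      rw [sum_Ico_eq_sub _ hjx]
    rw [h3]
    refine (norm_sum_le _ _).trans ?_
    calc ∑ n ∈ Ico (j ^ 8) x, ‖Z n ω‖ ≤ ∑ n ∈ Ico (j ^ 8) x, (1 : ℝ) :=
          sum_le_sum fun n _ => hb n ω
      _ = ((x - j ^ 8 : ℕ) : ℝ) := by
          rw [sum_const, nsmul_eq_mul, Nat.card_Ico, mul_one]
      _ ≤ 255 * (j : ℝ) ^ 7 := by exact_mod_cast hjx8
  have hxR : (0 : ℝ) < x := by exact_mod_cast hx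
  have hj2x : (j : ℝ) ^ 8 ≤ x := by exact_mod_cast hjx
  rw [norm_mul, norm_div, norm_one, Complex.norm_natCast]
  have hj0 : (j : ℝ) ≠ 0 := by positivity
  calc 1 / (x : ℝ) * ‖∑ n ∈ range x, Z n ω‖
      ≤ 1 / (j : ℝ) ^ 8 * (‖S (j ^ 8) ω‖ + 255 * (j : ℝ) ^ 7) := by
        have h4 : ‖∑ n ∈ range x, Z n ω‖ ≤ ‖S (j ^ 8) ω‖ + 255 * (j : ℝ) ^ 7 := by
          have h5 : ∑ n ∈ range x, Z n ω = S (j ^ 8) ω + (S x ω - S (j ^ 8) ω) := by
            simp only [hS]; ring
          rw [h5]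
          exact (norm_add_le _ _).trans (by linarith)
        gcongr
    _ = ‖S (j ^ 8) ω‖ / (j : ℝ) ^ 8 + 255 / j := by
        field_simp

end Pool.Agent.H33.Ell
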