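import Mathlib
import Pool.Agent.H33.Ell.RandK
import Pool.Agent.H33.Ell.CountK

/-!
Counting pairs that no family of values separates.
-/

namespace Pool.Agent.H33.Ell

open Finset Filter Topology MeasureTheory

variable {k : ℕ}

/-- `∏ (P n + h_j)^(e_j)` -/
def PU (h : Fin k → ℤ) (e : Fin k → ℕ) (P n : ℕ) : ℕ :=
  ∏ j, ((P : ℤ) * n + h j).toNat ^ e j

/-- the family which is `z` at `p` and one elsewhere -/
noncomputable def spike {K : Subgroup Circle} (p : ℕ) (z : K) : Nat.Primes → K :=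
  fun r => if (r : ℕ) = p then z else 1

theorem cm_spike {K : Subgroup Circle} {p : ℕ} (hp : p.Prime) (z : K) {n : ℕ} (hn : n ≠ 0) :
    cm (lift (spike p z)) n = ((z : Circle) : ℂ) ^ (n.factorization p) := by
  unfold cm
  rw [if_neg hn, Finsupp.prod]
  have hval : ∀ q : ℕ, val (lift (spike p z)) q = if q = p then ((z : Circle) : ℂ) else 1 := by
    intro q
    unfold val
    by_cases hq : q.Prime
    · rw [dif_pos hq]
      unfold lift spike
      change ((((if q = p then z else 1 : K)) : Circle) : ℂ) = _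
      by_cases hqp : q = p
      · rw [if_pos hqp, if_pos hqp]
      · rw [if_neg hqp, if_neg hqp]
        simp
    · rw [dif_neg hq, if_neg]
      rintro rfl
      exact hq hp
  rw [prod_congr rfl (g := fun q => if q = p then ((z : Circle) : ℂ) ^ (n.factorization p) else 1)]
  · rw [prod_ite_eq']
    split_ifs with h
    · rfl
    · rw [Finsupp.notMem_support_iff] at h
      rw [h, pow_zero]
  · intro q _
    rw [hval]
    by_cases hqp : q = p
    · rw [if_pos hqp, if_pos hqp, hqp]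
    · rw [if_neg hqp, if_neg hqp, one_pow]

theorem cm_spike_of_not_dvd {K : Subgroup Circle} {p : ℕ} (hp : p.Prime) (z : K) {n : ℕ}
    (hn : ¬ p ∣ n) : cm (lift (spike p z)) n = 1 := by
  have hn0 : n ≠ 0 := by
    rintro rfl
    exact hn (dvd_zero p)
  rw [cm_spike hp z hn0, Nat.factorization_eq_zero_of_not_dvd hn, pow_zero]

theorem dvd_int_of_toNat {p : ℕ} {y : ℤ} (hy : y.toNat ≠ 0) (h : p ∣ y.toNat) : (p : ℤ) ∣ y := by
  have h1 : 0 ≤ y := by
    by_contra hc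
    apply hy
    exact Int.toNat_of_nonpos (by omega)
  rw [← Int.toNat_of_nonneg h1]
  exact_mod_cast h

theorem pair_count_lt (K : Subgroup Circle) [∀ a b, Decidable (Same K a b)] (hk : 0 < k)
    (h : Fin k → ℤ) (hinj : Function.Injective h) (hne : ∀ j, h j ≠ 0)
    (e : Fin k → ℕ) (he : ∀ j, ∃ z : K, ((z : Circle) : ℂ) ^ e j ≠ 1) (P Q : ℕ) (hP : 0 < P)
    (hPQ : P < Q) :
    ∃ C : ℝ, 0 ≤ C ∧ ∀ i : ℕ, 1 ≤ i → ∀ n < i ^ 8, PU h e P n ≠ 0 → PU h e Q n ≠ 0 →
      (((range (i ^ 8)).filter (fun m => Same K (PU h e P n * PU h e Q m)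
        (PU h e Q n * PU h e P m))).card : ℝ) ≤ C * (i : ℝ) ^ 6 := by
  classical
  obtain ⟨j₀, -, hj₀⟩ := exists_max_image (univ : Finset (Fin k)) (fun j => |h j|)
    ⟨⟨0, hk⟩, mem_univ _⟩
  have he0 : ∀ j, e j ≠ 0 := by
    intro j hj
    obtain ⟨z, hz⟩ := he j
    apply hz
    rw [hj, pow_zero]
  set Δ : ℕ := (∏ j ∈ univ.erase j₀, (h j - h j₀).natAbs) *
    ∏ j, ((Q : ℤ) * h j₀ - P * h j).natAbs with hΔ
  have hcross : ∀ j, (Q : ℤ) * h j₀ - P * h j ≠ 0 := by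
    intro j hc
    have h1 : (Q : ℤ) * h j₀ = P * h j := by linarith
    have h2 : (Q : ℤ) * |h j₀| = P * |h j| := by
      have := congrArg abs h1
      rwa [abs_mul, abs_mul, Nat.abs_cast, Nat.abs_cast] at this
    have h3 : |h j| ≤ |h j₀| := hj₀ j (mem_univ _)
    have h4 : 0 < |h j₀| := abs_pos.2 (hne j₀)
    have h5 : (P : ℤ) < Q := by exact_mod_cast hPQ
    have h6 : (0 : ℤ) < P := by exact_mod_cast hP
    nlinarith
  have hΔ0 : Δ ≠ 0 := by
    rw [hΔ]
    apply mul_ne_zero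
    · rw [prod_ne_zero_iff]
      intro j hj hc
      rw [Int.natAbs_eq_zero, sub_eq_zero] at hc
      exact (mem_erase.1 hj).1 (hinj hc)
    · rw [prod_ne_zero_iff]
      intro j _ hc
      rw [Int.natAbs_eq_zero] at hc
      exact hcross j hc
  set E : ℕ := ∑ j, e j with hE
  have hE1 : 1 ≤ E := by
    have h1 : e j₀ ≤ E := single_le_sum (f := e) (fun _ _ => Nat.zero_le _) (mem_univ j₀)
    have := he0 j₀
    omega
  set R : ℕ := P + Q + ∑ j, (h j).natAbs with hR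
  have hER : (0 : ℝ) < E := by exact_mod_cast hE1
  obtain ⟨Cτ, hCτ, hτ⟩ := Pool.Agent.H5.W.divisor_bound (1 / (16 * E)) (by positivity)
  set A : ℝ := (Δ : ℝ) * (R : ℝ) ^ (2 * E) with hA
  have hA0 : 0 ≤ A := by positivity
  refine ⟨Cτ * A ^ ((1 : ℝ) / (16 * E)) + (P + (h j₀).natAbs : ℕ), by positivity, ?_⟩
  intro i hi n hn hU hV
  set x := i ^ 8 with hx
  have hx1 : 1 ≤ x := Nat.one_le_pow _ _ hi
  set D : ℕ := PU h e P n * PU h e Q n * Δ with hD
  have hD0 : D ≠ 0 := mul_ne_zero (mul_ne_zero hU hV) hΔ0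
  -- key property
  have hkey : ∀ m, Same K (PU h e P n * PU h e Q m) (PU h e Q n * PU h e P m) →
      ((P : ℤ) * m + h j₀).toNat ≠ 0 ∧ ∀ p, p.Prime → ¬ p ∣ D →
        ((P : ℤ) * m + h j₀).toNat.factorization p ≠ 1 := by
    rintro m ⟨hs1, hs2, hs3⟩
    have hUm : PU h e P m ≠ 0 := right_ne_zero_of_mul hs2
    have hVm : PU h e Q m ≠ 0 := right_ne_zero_of_mul hs1
    have hPf : ∀ j, ((P : ℤ) * m + h j).toNat ≠ 0 := by
      intro j hc
      apply hUm
      unfold PU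
      apply prod_eq_zero (mem_univ j)
      rw [hc, zero_pow (he0 j)]
    have hQf : ∀ j, ((Q : ℤ) * m + h j).toNat ≠ 0 := by
      intro j hc
      apply hVm
      unfold PU
      apply prod_eq_zero (mem_univ j)
      rw [hc, zero_pow (he0 j)]
    refine ⟨hPf j₀, ?_⟩
    intro p hp hpD hv
    obtain ⟨z, hz⟩ := he j₀
    have hpdvd : p ∣ ((P : ℤ) * m + h j₀).toNat := by
      by_contra hc
      rw [Nat.factorization_eq_zero_of_not_dvd hc] at hv
      exact absurd hv (by norm_num)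
    have hpdvd' : (p : ℤ) ∣ (P : ℤ) * m + h j₀ := dvd_int_of_toNat (hPf j₀) hpdvd
    have hpΔ : ¬ p ∣ Δ := fun hc => hpD (hc.mul_left _)
    have hpU : ¬ p ∣ PU h e P n := fun hc => hpD ((hc.mul_right _).mul_right _)
    have hpV : ¬ p ∣ PU h e Q n := fun hc => hpD ((hc.mul_left _).mul_right _)
    have hp1 : ∀ j, j ≠ j₀ → ¬ p ∣ ((P : ℤ) * m + h j).toNat := by
      intro j hj hc
      apply hpΔ
      have h1 := dvd_int_of_toNat (hPf j) hc
      have h2 : (p : ℤ) ∣ h j - h j₀ := by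
        have := dvd_sub h1 hpdvd'
        have e1 : (P : ℤ) * m + h j - ((P : ℤ) * m + h j₀) = h j - h j₀ := by ring
        rwa [e1] at this
      have h3 : p ∣ (h j - h j₀).natAbs := Int.natCast_dvd.1 h2
      exact (h3.trans (dvd_prod_of_mem (fun j => (h j - h j₀).natAbs)
        (mem_erase.2 ⟨hj, mem_univ j⟩))).mul_right _
    have hp2 : ∀ j, ¬ p ∣ ((Q : ℤ) * m + h j).toNat := by
      intro j hc
      apply hpΔ
      have h1 := dvd_int_of_toNat (hQf j) hc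
      have h2 : (p : ℤ) ∣ (Q : ℤ) * h j₀ - P * h j := by
        have := dvd_sub (hpdvd'.mul_left (Q : ℤ)) (h1.mul_left (P : ℤ))
        have e1 : (Q : ℤ) * ((P : ℤ) * m + h j₀) - (P : ℤ) * ((Q : ℤ) * m + h j) =
            (Q : ℤ) * h j₀ - P * h j := by ring
        rwa [e1] at this
      have h3 : p ∣ ((Q : ℤ) * h j₀ - P * h j).natAbs := Int.natCast_dvd.1 h2
      exact (h3.trans (dvd_prod_of_mem (fun j => ((Q : ℤ) * h j₀ - P * h j).natAbs)
        (mem_univ j))).mul_left _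
    have hs := hs3 (spike p z)
    rw [cm_mul, cm_mul, cm_spike_of_not_dvd hp z hpU, cm_spike_of_not_dvd hp z hpV, one_mul,
      one_mul] at hs
    have hV1 : cm (lift (spike p z)) (PU h e Q m) = 1 := by
      unfold PU
      rw [cm_prod]
      apply prod_eq_one
      intro j _
      rw [cm_pow, cm_spike_of_not_dvd hp z (hp2 j), one_pow]
    have hU1 : cm (lift (spike p z)) (PU h e P m) = ((z : Circle) : ℂ) ^ e j₀ := by
      unfold PU
      rw [cm_prod, ← mul_prod_erase univ _ (mem_univ j₀), cm_pow, cm_spike hp z (hPf j₀), hv,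
        pow_one]
      have : ∏ j ∈ univ.erase j₀, cm (lift (spike p z)) (((P : ℤ) * m + h j).toNat ^ e j) = 1 := by
        apply prod_eq_one
        intro j hj
        rw [cm_pow, cm_spike_of_not_dvd hp z (hp1 j (mem_erase.1 hj).1), one_pow]
      rw [this, mul_one]
    rw [hV1, hU1] at hs
    exact hz hs.symm
  -- counting
  set X : ℕ := P * x + (h j₀).natAbs with hX
  set S : Finset ℕ := (range x).filter (fun m => Same K (PU h e P n * PU h e Q m)
        (PU h e Q n * PU h e P m)) with hS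
  set f : ℕ → ℕ := fun m => ((P : ℤ) * m + h j₀).toNat with hf
  have hfinj : Set.InjOn f S := by
    intro a ha b hb hab
    rw [mem_coe, hS, mem_filter] at ha hb
    have ha' := (hkey a ha.2).1
    have hb' := (hkey b hb.2).1
    simp only [hf] at hab
    have h1 : (P : ℤ) * a + h j₀ = (P : ℤ) * b + h j₀ := by omega
    have h2 : (P : ℤ) * a = (P : ℤ) * b := by linarith
    have h3 : (P : ℤ) ≠ 0 := by exact_mod_cast hP.ne'
    exact_mod_cast mul_left_cancel₀ h3 h2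
  have hcard : S.card = (S.image f).card := (card_image_of_injOn hfinj).symm
  have hWprop : ∀ l ∈ S.image f, 1 ≤ l ∧ l ≤ X ∧
      ∀ p, p.Prime → ¬ p ∣ D → l.factorization p ≠ 1 := by
    intro l hl
    rw [mem_image] at hl
    obtain ⟨m, hm, rfl⟩ := hl
    rw [hS, mem_filter, mem_range] at hm
    obtain ⟨h1, h2⟩ := hkey m hm.2
    refine ⟨Nat.pos_of_ne_zero h1, ?_, h2⟩
    simp only [hf]
    rw [Int.toNat_le, hX]
    have h3 : (P : ℤ) * m ≤ P * x := by
      have : (m : ℤ) ≤ x := by exact_mod_cast hm.1.le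
      have h4 : (0 : ℤ) ≤ P := Int.natCast_nonneg P
      nlinarith
    have h4 : h j₀ ≤ (h j₀).natAbs := Int.le_natAbs
    push_cast
    push_cast at h4
    linarith
  have hi2 : 1 ≤ i ^ 2 := Nat.one_le_pow _ _ hi
  have hcs := card_special D X (i ^ 2) hD0 hi2 (S.image f) hWprop
  rw [← hcard] at hcs
  -- the divisor bound
  have hfac : ∀ (T : ℕ), T ≤ P + Q → ∀ j, ((T : ℤ) * n + h j).toNat ≤ R * x := by
    intro T hT j
    have h1 : ((T : ℤ) * n + h j).toNat ≤ T * n + (h j).natAbs := by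
      rw [Int.toNat_le]
      have h4 : h j ≤ (h j).natAbs := Int.le_natAbs
      push_cast
      push_cast at h4
      linarith
    have h2 : (h j).natAbs ≤ ∑ j, (h j).natAbs :=
      single_le_sum (f := fun j => (h j).natAbs) (fun _ _ => Nat.zero_le _) (mem_univ j)
    calc ((T : ℤ) * n + h j).toNat ≤ T * n + (h j).natAbs := h1
      _ ≤ (P + Q) * x + (∑ j, (h j).natAbs) * x :=
          Nat.add_le_add (Nat.mul_le_mul hT hn.le) (h2.trans (Nat.le_mul_of_pos_right _ hx1))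
      _ = R * x := by rw [hR]; ring
  have hPU : ∀ (T : ℕ), T ≤ P + Q → PU h e T n ≤ (R * x) ^ E := by
    intro T hT
    unfold PU
    rw [hE, ← prod_pow_eq_pow_sum]
    exact prod_le_prod' fun j _ => Nat.pow_le_pow_left (hfac T hT j) _
  have hDle : (D : ℝ) ≤ A * (i : ℝ) ^ (16 * E) := by
    have h1 : D ≤ (R * x) ^ E * (R * x) ^ E * Δ := by
      rw [hD]
      exact Nat.mul_le_mul_right _ (Nat.mul_le_mul (hPU P (Nat.le_add_right _ _))
        (hPU Q (Nat.le_add_left _ _)))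
    calc (D : ℝ) ≤ (((R * x) ^ E * (R * x) ^ E * Δ : ℕ) : ℝ) := by exact_mod_cast h1
      _ = A * (i : ℝ) ^ (16 * E) := by
          rw [hA, hx]
          push_cast
          rw [mul_pow, ← pow_mul]
          ring
  have hiR : (1 : ℝ) ≤ i := by exact_mod_cast hi
  have hτD : (D.divisors.card : ℝ) ≤ Cτ * A ^ ((1 : ℝ) / (16 * E)) * i := by
    refine (hτ D (Nat.pos_of_ne_zero hD0)).trans ?_
    have h1 : (D : ℝ) ^ ((1 : ℝ) / (16 * E)) ≤ (A * (i : ℝ) ^ (16 * E)) ^ ((1 : ℝ) / (16 * E)) :=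
      Real.rpow_le_rpow (Nat.cast_nonneg _) hDle (by positivity)
    have h2 : (A * (i : ℝ) ^ (16 * E)) ^ ((1 : ℝ) / (16 * E)) = A ^ ((1 : ℝ) / (16 * E)) * i := by
      rw [Real.mul_rpow hA0 (by positivity)]
      congr 1
      rw [← Real.rpow_natCast, ← Real.rpow_mul (by positivity)]
      push_cast
      have : (16 * (E : ℝ)) * (1 / (16 * E)) = 1 := by
        field_simp
      rw [this, Real.rpow_one]
    rw [h2] at h1
    calc Cτ * (D : ℝ) ^ ((1 : ℝ) / (16 * E)) ≤ Cτ * (A ^ ((1 : ℝ) / (16 * E)) * i) := by gcongr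
      _ = _ := by ring
  refine hcs.trans ?_
  have hX' : (X : ℝ) / ((i ^ 2 : ℕ) : ℝ) ≤ ((P + (h j₀).natAbs : ℕ) : ℝ) * (i : ℝ) ^ 6 := by
    rw [div_le_iff₀ (by positivity)]
    have h1 : X ≤ (P + (h j₀).natAbs) * i ^ 8 := by
      rw [hX, hx, Nat.add_mul]
      exact Nat.add_le_add_left (Nat.le_mul_of_pos_right _ hx1) _
    calc (X : ℝ) ≤ (((P + (h j₀).natAbs) * i ^ 8 : ℕ) : ℝ) := by exact_mod_cast h1
      _ = _ := by push_cast; ring
  have hi5 : (i : ℝ) * (((i ^ 2 : ℕ) : ℝ)) ^ 2 ≤ (i : ℝ) ^ 6 := by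
    push_cast
    calc (i : ℝ) * ((i : ℝ) ^ 2) ^ 2 = (i : ℝ) ^ 5 := by ring
      _ ≤ (i : ℝ) ^ 6 := pow_le_pow_right₀ hiR (by norm_num)
  calc (D.divisors.card : ℝ) * (((i ^ 2 : ℕ) : ℝ)) ^ 2 + (X : ℝ) / ((i ^ 2 : ℕ) : ℝ)
      ≤ (Cτ * A ^ ((1 : ℝ) / (16 * E)) * i) * (((i ^ 2 : ℕ) : ℝ)) ^ 2 +
        ((P + (h j₀).natAbs : ℕ) : ℝ) * (i : ℝ) ^ 6 := by gcongr
    _ = (Cτ * A ^ ((1 : ℝ) / (16 * E))) * (i * (((i ^ 2 : ℕ) : ℝ)) ^ 2) +
        ((P + (h j₀).natAbs : ℕ) : ℝ) * (i : ℝ) ^ 6 := by ring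
    _ ≤ (Cτ * A ^ ((1 : ℝ) / (16 * E))) * (i : ℝ) ^ 6 +
        ((P + (h j₀).natAbs : ℕ) : ℝ) * (i : ℝ) ^ 6 := by gcongr
    _ = _ := by ring

theorem Same.symm {K : Subgroup Circle} {a b : ℕ} (h : Same K a b) : Same K b a :=
  ⟨h.2.1, h.1, fun η => (h.2.2 η).symm⟩

theorem pair_count (K : Subgroup Circle) [∀ a b, Decidable (Same K a b)] (hk : 0 < k)
    (h : Fin k → ℤ) (hinj : Function.Injective h) (hne : ∀ j, h j ≠ 0)
    (e : Fin k → ℕ) (he : ∀ j, ∃ z : K, ((z : Circle) : ℂ) ^ e j ≠ 1) (P Q : ℕ) (hP : 0 < P)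
    (hQ : 0 < Q) (hPQ : P ≠ Q) :
    ∃ C : ℝ, 0 ≤ C ∧ ∀ i : ℕ, 1 ≤ i → ∀ n < i ^ 8, PU h e P n ≠ 0 → PU h e Q n ≠ 0 →
      (((range (i ^ 8)).filter (fun m => Same K (PU h e P n * PU h e Q m)
        (PU h e Q n * PU h e P m))).card : ℝ) ≤ C * (i : ℝ) ^ 6 := by
  rcases Nat.lt_or_gt_of_ne hPQ with hlt | hlt
  · exact pair_count_lt K hk h hinj hne e he P Q hP hlt
  · obtain ⟨C, hC, hCC⟩ := pair_count_lt K hk h hinj hne e he Q P hQ hlt
    refine ⟨C, hC, fun i hi n hn hU hV => ?_⟩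
    refine le_trans (le_of_eq ?_) (hCC i hi n hn hV hU)
    congr 2
    apply filter_congr
    intro m _
    exact ⟨Same.symm, Same.symm⟩

end Pool.Agent.H33.Ell
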