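import Mathlib
import Pool.Agent.H33.Ell.PairK
import Pool.Agent.H2.EllMainB

/-!
Correlations of almost every completely multiplicative function with values in the `q`-th roots of
unity against every bounded multiplicative function.
-/

namespace Pool.Agent.H33.Ell

open Finset Filter Topology MeasureTheory

variable {k : ℕ}

/-- the factor carrying the fixed bounded function and the random function -/
noncomputable def FK (b : ℕ → ℂ) (h : Fin k → ℤ) (e : Fin k → ℕ) (c : ℤ)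
    (ω : Nat.Primes → Circle) (N : ℕ) : ℂ :=
  b (((N : ℤ) - c).toNat) * ∏ j, cm ω ((N : ℤ) + h j).toNat ^ e j

theorem norm_FK_le (b : ℕ → ℂ) (hb : ∀ n, ‖b n‖ ≤ 1) (h : Fin k → ℤ) (e : Fin k → ℕ) (c : ℤ)
    (ω : Nat.Primes → Circle) (N : ℕ) : ‖FK b h e c ω N‖ ≤ 1 := by
  unfold FK
  rw [norm_mul, norm_prod]
  refine mul_le_one₀ (hb _) (prod_nonneg fun _ _ => norm_nonneg _)
    (prod_le_one (fun _ _ => norm_nonneg _) fun j _ => ?_)
  rw [norm_pow]
  exact pow_le_one₀ (norm_nonneg _) (norm_cm_le ω _)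

theorem FK_pair (b : ℕ → ℂ) (h : Fin k → ℤ) (e : Fin k → ℕ) (c : ℤ) (ω : Nat.Primes → Circle)
    (P Q m : ℕ) :
    FK b h e c ω (P * m) * (starRingEnd ℂ) (FK b h e c ω (Q * m)) =
      (b ((((P * m : ℕ) : ℤ) - c).toNat) * (starRingEnd ℂ) (b ((((Q * m : ℕ) : ℤ) - c).toNat))) *
        (cm ω (PU h e P m) * (starRingEnd ℂ) (cm ω (PU h e Q m))) := by
  unfold FK PU
  rw [map_mul, cm_prod, cm_prod]
  simp only [cm_pow, Nat.cast_mul]
  ring

theorem ae_pairK (K : Subgroup Circle) [CompactSpace K] (b : ℕ → ℂ) (hb : ∀ n, ‖b n‖ ≤ 1)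
    (h : Fin (k + 1) → ℤ) (e : Fin (k + 1) → ℕ) (c : ℤ)
    (hinj : Function.Injective h) (hne : ∀ j, h j ≠ 0)
    (he : ∀ j, ∃ z : K, ((z : Circle) : ℂ) ^ e j ≠ 1) (P Q : ℕ) (hP : 0 < P)
    (hQ : 0 < Q) (hPQ : P ≠ Q) :
    ∀ᵐ ω ∂(haarK K), Tendsto (fun x : ℕ => (1 / (x : ℂ)) * ∑ m ∈ range x,
      FK b h e c (lift ω) (P * m) * (starRingEnd ℂ) (FK b h e c (lift ω) (Q * m)))
      atTop (𝓝 0) := by
  classical
  set β : ℕ → ℂ := fun m =>
    b ((((P * m : ℕ) : ℤ) - c).toNat) * (starRingEnd ℂ) (b ((((Q * m : ℕ) : ℤ) - c).toNat)) with hβd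
  have hβ : ∀ n, ‖β n‖ ≤ 1 := by
    intro n
    simp only [hβd]
    rw [norm_mul, RCLike.norm_conj]
    exact mul_le_one₀ (hb _) (norm_nonneg _) (hb _)
  obtain ⟨C, hC, hCC⟩ := pair_count K (Nat.succ_pos k) h hinj hne e he P Q hP hQ hPQ
  have hZ : ∀ n (ω : Nat.Primes → K),
      ‖β n * (cm (lift ω) (PU h e P n) * (starRingEnd ℂ) (cm (lift ω) (PU h e Q n)))‖ ≤ 1 := by
    intro n ω
    rw [norm_mul (β n), norm_mul (cm _ _), RCLike.norm_conj]
    exact mul_le_one₀ (hβ n) (mul_nonneg (norm_nonneg _) (norm_nonneg _))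
      (mul_le_one₀ (norm_cm_le _ _) (norm_nonneg _) (norm_cm_le _ _))
  have hmain := strong_law8 (haarK K)
    (fun n ω => β n * (cm (lift ω) (PU h e P n) * (starRingEnd ℂ) (cm (lift ω) (PU h e Q n))))
    (fun n => (continuous_const.mul ((continuous_cmK _).mul
      (Complex.continuous_conj.comp (continuous_cmK _)))).measurable)
    hZ C
    (fun i hi => by
      refine (second_momentK (i ^ 8) (C * (i : ℝ) ^ 6) (by positivity) β hβ (PU h e P) (PU h e Q)
        (fun n hn hU hV => hCC i hi n hn hU hV)).trans (le_of_eq ?_)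
      push_cast
      ring)
  filter_upwards [hmain] with ω hω
  refine hω.congr (fun x => ?_)
  congr 1
  apply sum_congr rfl
  intro m _
  exact (FK_pair b h e c (lift ω) P Q m).symm

theorem ae_allK (K : Subgroup Circle) [CompactSpace K] (b : ℕ → ℂ) (hb : ∀ n, ‖b n‖ ≤ 1) :
    ∀ᵐ ω ∂(haarK K), ∀ (k : ℕ) (h : Fin (k + 1) → ℤ) (e : Fin (k + 1) → ℕ) (c : ℤ) (P Q : ℕ),
      (Function.Injective h ∧ (∀ j, h j ≠ 0) ∧ (∀ j, ∃ z : K, ((z : Circle) : ℂ) ^ e j ≠ 1) ∧
        0 < P ∧ 0 < Q ∧ P ≠ Q) →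
      Tendsto (fun x : ℕ => (1 / (x : ℂ)) * ∑ m ∈ range x,
        FK b h e c (lift ω) (P * m) * (starRingEnd ℂ) (FK b h e c (lift ω) (Q * m)))
        atTop (𝓝 0) := by
  rw [ae_all_iff]
  intro k
  rw [ae_all_iff]
  intro h
  rw [ae_all_iff]
  intro e
  rw [ae_all_iff]
  intro c
  rw [ae_all_iff]
  intro P
  rw [ae_all_iff]
  intro Q
  rw [Filter.eventually_imp_distrib_left]
  rintro ⟨hinj, hne, he, hP, hQ, hPQ⟩
  exact ae_pairK K b hb h e c hinj hne he P Q hP hQ hPQ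

theorem mainK (K : Subgroup Circle) [CompactSpace K] (b : ℕ → ℂ) (hb : ∀ n, ‖b n‖ ≤ 1) :
    ∀ᵐ ω ∂(haarK K), ∀ (k : ℕ) (h : Fin (k + 1) → ℤ) (e : Fin (k + 1) → ℕ) (h₀ : ℤ),
      Function.Injective h → (∀ j, ∃ z : K, ((z : Circle) : ℂ) ^ e j ≠ 1) → (∀ j, h j ≠ h₀) →
      ∀ f : ArithmeticFunction ℂ, f.IsMultiplicative → (∀ n, ‖f n‖ ≤ 1) →
      Tendsto (fun N : ℕ => (1 / (N : ℂ)) * ∑ n ∈ Finset.Icc 1 N,
        b n * (∏ j, cm (lift ω) ((n : ℤ) + h j).toNat ^ e j) * f ((n : ℤ) + h₀).toNat)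
        atTop (𝓝 0) := by
  filter_upwards [ae_allK K b hb] with ω hω
  intro k h e h₀ hinj he hh₀ f hf hfb
  set h' : Fin (k + 1) → ℤ := fun j => h j - h₀ with hh'
  have hinj' : Function.Injective h' := by
    intro i j hij
    simp only [hh'] at hij
    exact hinj (by linarith)
  have hne' : ∀ i, h' i ≠ 0 := by
    intro i hi
    simp only [hh'] at hi
    exact hh₀ i (by linarith)
  have hkat := Pool.H2.Ell.katai (FK b h' e h₀ (lift ω)) (fun n => f n)
    (norm_FK_le b hb h' e h₀ (lift ω))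
    (Pool.H2.Ell.MB_of hf hfb) 0
    (fun P Q hP hQ _ _ hPQ => hω k h' e h₀ P Q ⟨hinj', hne', he, hP.pos, hQ.pos, hPQ⟩)
  set A : ℕ → ℂ := fun n => f n * FK b h' e h₀ (lift ω) n with hA
  have hAb : ∀ n, ‖A n‖ ≤ 1 := by
    intro n
    rw [hA, norm_mul]
    exact mul_le_one₀ (hfb n) (norm_nonneg _) (norm_FK_le b hb h' e h₀ (lift ω) n)
  set B : ℕ → ℂ := fun n => b n * (∏ j, cm (lift ω) ((n : ℤ) + h j).toNat ^ e j) *
    f ((n : ℤ) + h₀).toNat with hB
  have hBb : ∀ n, ‖B n‖ ≤ 1 := by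
    intro n
    rw [hB, norm_mul, norm_mul, norm_prod]
    refine mul_le_one₀ (mul_le_one₀ (hb n) (prod_nonneg fun _ _ => norm_nonneg _)
      (prod_le_one (fun _ _ => norm_nonneg _) fun j _ => ?_)) (norm_nonneg _) (hfb _)
    rw [norm_pow]
    exact pow_le_one₀ (norm_nonneg _) (norm_cm_le _ _)
  have hsplit : ∀ (n : ℕ) (N : ℕ), (N : ℤ) = n + h₀ → B n = A N := by
    intro n N hN
    simp only [hA, hB, FK, hh']
    rw [← hN, Int.toNat_natCast]
    have h1 : ((N : ℤ) - h₀).toNat = n := by omega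
    have h2 : ∀ j, (n : ℤ) + h j = (N : ℤ) + (h j - h₀) := fun j => by omega
    rw [h1]
    simp only [h2]
    ring
  have hBlim : Tendsto (fun x : ℕ => (1 / (x : ℂ)) * ∑ n ∈ range x, B n) atTop (𝓝 0) := by
    rcases le_total 0 h₀ with h0 | h0
    · obtain ⟨s, hs'⟩ := Int.eq_ofNat_of_zero_le h0
      have h1 : ∀ n, B n = A (n + s) := by
        intro n
        apply hsplit
        push_cast
        rw [hs']
      have h2 := (Pool.H2.Ell.mean_shift A hAb s).2 hkat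
      refine h2.congr (fun x => ?_)
      congr 1
      exact sum_congr rfl (fun n _ => (h1 n).symm)
    · obtain ⟨s, hs'⟩ := Int.eq_ofNat_of_zero_le (show 0 ≤ -h₀ by linarith)
      have h1 : ∀ n, B (n + s) = A n := by
        intro n
        apply hsplit
        push_cast
        omega
      rw [← Pool.H2.Ell.mean_shift B hBb s]
      refine hkat.congr (fun x => ?_)
      congr 1
      exact sum_congr rfl (fun n _ => (h1 n).symm)
  rw [← Pool.H2.Ell.mean_shift B hBb 1] at hBlim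
  refine hBlim.congr (fun x => ?_)
  congr 1
  rw [Finset.range_eq_Ico, Finset.sum_Ico_add' B 0 x 1]
  apply sum_congr _ (fun _ _ => rfl)
  ext n
  simp only [mem_Ico, mem_Icc]
  omega

/-- the group of `q`-th roots of unity on the circle -/
noncomputable def rootGrp (q : ℕ) : Subgroup Circle := (powMonoidHom q : Circle →* Circle).ker

theorem mem_rootGrp (q : ℕ) (z : Circle) : z ∈ rootGrp q ↔ z ^ q = 1 := Iff.rfl

instance (q : ℕ) : CompactSpace (rootGrp q) := by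
  have h : IsClosed ((rootGrp q : Subgroup Circle) : Set Circle) := by
    have h1 : ((rootGrp q : Subgroup Circle) : Set Circle) = (fun z : Circle => z ^ q) ⁻¹' {1} := by
      ext z
      exact mem_rootGrp q z
    rw [h1]
    exact isClosed_singleton.preimage (continuous_pow q)
  exact isCompact_iff_compactSpace.1 h.isCompact

theorem exists_zeta (q : ℕ) (hq : q ≠ 0) (e : ℕ) (he : ¬ q ∣ e) :
    ∃ z : rootGrp q, ((z : Circle) : ℂ) ^ e ≠ 1 := by
  have : NeZero q := ⟨hq⟩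
  have hpow : ∀ m : ℕ, ZMod.toCircle (1 : ZMod q) ^ m = ZMod.toCircle ((m : ZMod q)) := by
    intro m
    rw [← AddChar.map_nsmul_eq_pow, nsmul_eq_mul, mul_one]
  have hmem : ZMod.toCircle (1 : ZMod q) ∈ rootGrp q := by
    rw [mem_rootGrp, hpow, ZMod.natCast_self, AddChar.map_zero_eq_one]
  refine ⟨⟨ZMod.toCircle (1 : ZMod q), hmem⟩, ?_⟩
  intro hc
  have h1 : ZMod.toCircle (1 : ZMod q) ^ e = 1 := by
    apply Circle.ext
    rw [Circle.coe_pow, Circle.coe_one]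
    exact hc
  rw [hpow] at h1
  have h2 : (e : ZMod q) = 0 := by
    apply ZMod.injective_toCircle
    rw [h1, AddChar.map_zero_eq_one]
  exact he ((ZMod.natCast_eq_zero_iff e q).1 h2)

end Pool.Agent.H33.Ell
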